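import Pool.Agent.Helper26.Cc.Stm3

/-!
# Package W1D of helper26's project CC: the Lusin property of Lipschitz functions of one variable
-/

set_option autoImplicit false

open MeasureTheory Filter Topology
open scoped BigOperators ENNReal NNReal

namespace Pool.Agent.Helper41.Cc

/-! ### Interpolation in the gaps of a closed set -/

section gaps

/-- the nearest points of the closed set on both sides -/
structure Gp (C : Set ℝ) (y a b : ℝ) : Prop where
  ha : a ∈ C
  hb : b ∈ C
  ay : a ≤ y
  yb : y ≤ b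
  la : ∀ c ∈ C, c ≤ y → c ≤ a
  lb : ∀ c ∈ C, y ≤ c → b ≤ c

lemma exists_gp {C : Set ℝ} (hC : IsClosed C) (h1 : ∀ y, ∃ c ∈ C, c ≤ y) (h2 : ∀ y, ∃ c ∈ C, y ≤ c)
    (y : ℝ) : ∃ a b, Gp C y a b := by
  obtain ⟨c1, hc1, hc1'⟩ := h1 y
  obtain ⟨c2, hc2, hc2'⟩ := h2 y
  have ne1 : (C ∩ Set.Iic y).Nonempty := ⟨c1, hc1, hc1'⟩
  have ne2 : (C ∩ Set.Ici y).Nonempty := ⟨c2, hc2, hc2'⟩
  have bd1 : BddAbove (C ∩ Set.Iic y) := ⟨y, fun c hc => hc.2⟩
  have bd2 : BddBelow (C ∩ Set.Ici y) := ⟨y, fun c hc => hc.2⟩
  have m1 := (hC.inter isClosed_Iic).csSup_mem ne1 bd1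
  have m2 := (hC.inter isClosed_Ici).csInf_mem ne2 bd2
  exact ⟨_, _, m1.1, m2.1, m1.2, m2.2, fun c hc hcy => le_csSup bd1 ⟨hc, hcy⟩,
    fun c hc hcy => csInf_le bd2 ⟨hc, hcy⟩⟩

lemma Gp.uniq {C : Set ℝ} {y a b a' b' : ℝ} (h : Gp C y a b) (h' : Gp C y a' b') :
    a = a' ∧ b = b' :=
  ⟨le_antisymm (h'.la a h.ha h.ay) (h.la a' h'.ha h'.ay),
    le_antisymm (h.lb b' h'.hb h'.yb) (h'.lb b h.hb h.yb)⟩

lemma Gp.self {C : Set ℝ} {y : ℝ} (h : y ∈ C) : Gp C y y y :=
  ⟨h, h, le_rfl, le_rfl, fun _ _ h => h, fun _ _ h => h⟩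

lemma Gp.lt {C : Set ℝ} {y a b : ℝ} (h : Gp C y a b) (hy : y ∉ C) : a < y ∧ y < b :=
  ⟨lt_of_le_of_ne h.ay (by rintro rfl; exact hy h.ha),
    lt_of_le_of_ne h.yb (by rintro rfl; exact hy h.hb)⟩

lemma Gp.near {C : Set ℝ} {y a b : ℝ} (h : Gp C y a b) {y' : ℝ} (h1 : a < y') (h2 : y' < b) :
    Gp C y' a b := by
  refine ⟨h.ha, h.hb, h1.le, h2.le, fun c hc hcy => ?_, fun c hc hcy => ?_⟩
  · rcases le_total c y with h3 | h3
    · exact h.la c hc h3
    · exact absurd (h.lb c hc h3) (by linarith [lt_of_le_of_lt hcy h2])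
  · rcases le_total y c with h3 | h3
    · exact h.lb c hc h3
    · exact absurd (h.la c hc h3) (by linarith [lt_of_lt_of_le h1 hcy])

/-- the smooth step -/
noncomputable def St (t : ℝ) : ℝ := 3 * t ^ 2 - 2 * t ^ 3

lemma St_der (t : ℝ) : HasDerivAt St (6 * t * (1 - t)) t := by
  have h1 : HasDerivAt (fun t : ℝ => 3 * t ^ 2 - 2 * t ^ 3)
      (3 * ((2 : ℕ) * t ^ (2 - 1)) - 2 * ((3 : ℕ) * t ^ (3 - 1))) t :=
    ((hasDerivAt_pow 2 t).const_mul 3).sub ((hasDerivAt_pow 3 t).const_mul 2)
  have h2 : 3 * (((2 : ℕ) : ℝ) * t ^ (2 - 1)) - 2 * (((3 : ℕ) : ℝ) * t ^ (3 - 1)) =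
      6 * t * (1 - t) := by
    push_cast
    ring
  rw [h2] at h1
  exact h1

theorem interp {C : Set ℝ} (hC : IsClosed C) (h1 : ∀ y, ∃ c ∈ C, c ≤ y)
    (h2 : ∀ y, ∃ c ∈ C, y ≤ c) (v : ℝ → ℝ) (M : ℝ)
    (hM : ∀ x ∈ C, ∀ y ∈ C, x ≤ y → |v y - v x| ≤ M * (y - x))
    (hv : ∀ ε : ℝ, 0 < ε → ∃ δ : ℝ, 0 < δ ∧ ∀ x ∈ C, ∀ y ∈ C, x ≤ y → y < x + δ →
      |v y - v x| ≤ ε * (y - x)) :
    ∃ V : ℝ → ℝ, ContDiff ℝ 1 V ∧ ∀ x ∈ C, V x = v x := by
  choose a b hab using exists_gp hC h1 h2
  set t : ℝ → ℝ := fun y => (y - a y) / (b y - a y) with ht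
  set V : ℝ → ℝ := fun y => v (a y) + (v (b y) - v (a y)) * St (t y) with hV
  set D : ℝ → ℝ := fun y => (v (b y) - v (a y)) / (b y - a y) * (6 * t y * (1 - t y)) with hD
  have habC : ∀ y ∈ C, a y = y ∧ b y = y := fun y hy => (hab y).uniq (Gp.self hy)
  have hVC : ∀ y ∈ C, V y = v y := by
    intro y hy
    obtain ⟨h3, h4⟩ := habC y hy
    rw [hV]
    simp only
    rw [h3, h4, sub_self, zero_mul, add_zero]
  have hDC : ∀ y ∈ C, D y = 0 := by
    intro y hy
    obtain ⟨h3, h4⟩ := habC y hy
    rw [hD]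
    simp only
    rw [h3, h4, sub_self, zero_div, zero_mul]
  have hM0 : 0 ≤ M := by
    obtain ⟨c, hc, hc'⟩ := h1 0
    obtain ⟨d, hd, hd'⟩ := h2 1
    have h3 := hM c hc d hd (by linarith)
    have h4 : 0 < d - c := by linarith
    by_contra hneg
    push Not at hneg
    have := (abs_nonneg _).trans h3
    nlinarith
  -- the main estimate
  have key : ∀ ε : ℝ, 0 < ε → ∃ δ : ℝ, 0 < δ ∧ (∀ x ∈ C, ∀ y ∈ C, x ≤ y → y < x + δ →
      |v y - v x| ≤ ε * (y - x)) ∧ ∀ y, y ∉ C → (y - a y < δ →
        |v (b y) - v (a y)| * t y ≤ ε * (b y - a y)) ∧ (b y - y < δ →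
        |v (b y) - v (a y)| * (1 - t y) ≤ ε * (b y - a y)) := by
    intro ε hε
    obtain ⟨δ, hδ, h3⟩ := hv ε hε
    refine ⟨min δ (ε * δ / (M + 1)), lt_min hδ (by positivity), fun x hx y hy hxy hlt =>
      h3 x hx y hy hxy (hlt.trans_le (by gcongr; exact min_le_left _ _)), fun y hy => ?_⟩
    have g := hab y
    obtain ⟨g1, g2⟩ := g.lt hy
    have g3 : 0 < b y - a y := by linarith
    have ht0 : 0 ≤ t y := div_nonneg (by linarith) g3.le
    have ht1 : t y ≤ 1 := (div_le_one g3).2 (by linarith)
    have e1 : t y * (b y - a y) = y - a y := div_mul_cancel₀ _ g3.ne'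
    rcases lt_or_ge (b y - a y) δ with h4 | h4
    · have h5 := h3 (a y) g.ha (b y) g.hb (by linarith) (by linarith)
      constructor
      · intro _
        calc |v (b y) - v (a y)| * t y ≤ |v (b y) - v (a y)| * 1 := by gcongr
          _ ≤ _ := by rw [mul_one]; exact h5
      · intro _
        calc |v (b y) - v (a y)| * (1 - t y) ≤ |v (b y) - v (a y)| * 1 := by
              gcongr
              linarith
          _ ≤ _ := by rw [mul_one]; exact h5
    · have h5 := hM (a y) g.ha (b y) g.hb (by linarith)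
      have h6 : ε * δ / (M + 1) * M ≤ ε * δ := by
        rw [div_mul_eq_mul_div, div_le_iff₀ (by linarith)]
        have : 0 ≤ ε * δ := by positivity
        nlinarith
      constructor
      · intro h7
        have h8 : y - a y ≤ ε * δ / (M + 1) := h7.le.trans (min_le_right _ _)
        calc |v (b y) - v (a y)| * t y ≤ M * (b y - a y) * t y := by gcongr
          _ = M * (y - a y) := by rw [mul_assoc, mul_comm (b y - a y), e1]
          _ ≤ M * (ε * δ / (M + 1)) := by gcongr
          _ ≤ ε * δ := by linarith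
          _ ≤ ε * (b y - a y) := by gcongr
      · intro h7
        have h8 : b y - y ≤ ε * δ / (M + 1) := h7.le.trans (min_le_right _ _)
        have e2 : (b y - a y) * (1 - t y) = b y - y := by linear_combination -e1
        calc |v (b y) - v (a y)| * (1 - t y) ≤ M * (b y - a y) * (1 - t y) := by
              gcongr
          _ = M * (b y - y) := by rw [mul_assoc, e2]
          _ ≤ M * (ε * δ / (M + 1)) := by gcongr
          _ ≤ ε * δ := by linarith
          _ ≤ ε * (b y - a y) := by gcongr
  -- off the closed set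
  have hoff : ∀ y, y ∉ C → ∀ᶠ y' in 𝓝 y, a y' = a y ∧ b y' = b y := by
    intro y hy
    obtain ⟨g1, g2⟩ := (hab y).lt hy
    filter_upwards [Ioo_mem_nhds g1 g2] with y' hy'
    exact (hab y').uniq ((hab y).near hy'.1 hy'.2)
  have hder : ∀ y, HasDerivAt V (D y) y := by
    intro y
    by_cases hy : y ∈ C
    · rw [hDC y hy, hasDerivAt_iff_isLittleO, Asymptotics.isLittleO_iff]
      intro ε hε
      obtain ⟨δ, hδ, k1, k2⟩ := key (ε / 3) (by positivity)
      filter_upwards [Metric.ball_mem_nhds y hδ] with y' hy'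
      rw [Metric.mem_ball, Real.dist_eq, abs_lt] at hy'
      simp only [smul_zero, sub_zero, Real.norm_eq_abs]
      rw [hVC y hy]
      by_cases hyC : y' ∈ C
      · rw [hVC y' hyC]
        rcases le_total y y' with h3 | h3
        · have := k1 y hy y' hyC h3 (by linarith)
          rw [abs_of_nonneg (sub_nonneg.2 h3)]
          have h4 : 0 ≤ y' - y := by linarith
          nlinarith
        · have := k1 y' hyC y hy h3 (by linarith)
          rw [abs_sub_comm (v y'), abs_sub_comm y', abs_of_nonneg (sub_nonneg.2 h3)]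
          have h4 : 0 ≤ y - y' := by linarith
          nlinarith
      · have g := hab y'
        obtain ⟨g1, g2⟩ := g.lt hyC
        have g3 : 0 < b y' - a y' := by linarith
        have ht0 : 0 ≤ t y' := div_nonneg (by linarith) g3.le
        have ht1 : t y' ≤ 1 := (div_le_one g3).2 (by linarith)
        have e1 : t y' * (b y' - a y') = y' - a y' := div_mul_cancel₀ _ g3.ne'
        rcases le_total y y' with h3 | h3
        · -- `y ≤ a < y'`
          have h4 : y ≤ a y' := g.la y hy h3
          have h5 := k1 y hy (a y') g.ha h4 (by linarith)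
          have h6 := (k2 y' hyC).1 (by linarith)
          have e3 : V y' - v y = (v (a y') - v y) + (v (b y') - v (a y')) * St (t y') := by
            rw [hV]
            simp only
            ring
          have hS : |St (t y')| ≤ 3 * t y' * t y' := by
            unfold St
            rw [abs_le]
            constructor <;> nlinarith [mul_nonneg ht0 ht0, mul_nonneg (mul_nonneg ht0 ht0) ht0,
              mul_nonneg (mul_nonneg ht0 ht0) (sub_nonneg.2 ht1)]
          rw [e3, abs_of_nonneg (sub_nonneg.2 h3)]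
          calc |v (a y') - v y + (v (b y') - v (a y')) * St (t y')|
              ≤ |v (a y') - v y| + |v (b y') - v (a y')| * |St (t y')| := by
                rw [← abs_mul]
                exact abs_add_le _ _
            _ ≤ ε / 3 * (a y' - y) + |v (b y') - v (a y')| * (3 * t y' * t y') := by gcongr
            _ = ε / 3 * (a y' - y) + 3 * t y' * (|v (b y') - v (a y')| * t y') := by ring
            _ ≤ ε / 3 * (a y' - y) + 3 * t y' * (ε / 3 * (b y' - a y')) := by gcongr
            _ = ε / 3 * (a y' - y) + ε * (t y' * (b y' - a y')) := by ring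
            _ = ε / 3 * (a y' - y) + ε * (y' - a y') := by rw [e1]
            _ ≤ ε * (y' - y) := by nlinarith
        · have h4 : b y' ≤ y := g.lb y hy h3
          have h5 := k1 (b y') g.hb y hy h4 (by linarith)
          have h6 := (k2 y' hyC).2 (by linarith)
          have e3 : V y' - v y = (v (b y') - v y) - (v (b y') - v (a y')) * St (1 - t y') := by
            rw [hV]
            simp only
            unfold St
            ring
          have hS : |St (1 - t y')| ≤ 3 * (1 - t y') * (1 - t y') := by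
            have hs0 : 0 ≤ 1 - t y' := by linarith
            have hs1 : 1 - t y' ≤ 1 := by linarith
            unfold St
            rw [abs_le]
            constructor <;> nlinarith [mul_nonneg hs0 hs0, mul_nonneg (mul_nonneg hs0 hs0) hs0,
              mul_nonneg (mul_nonneg hs0 hs0) (sub_nonneg.2 hs1)]
          have hs0 : 0 ≤ 1 - t y' := by linarith
          have e2 : (1 - t y') * (b y' - a y') = b y' - y' := by linear_combination -e1
          rw [e3, abs_sub_comm y', abs_of_nonneg (sub_nonneg.2 h3)]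
          calc |v (b y') - v y - (v (b y') - v (a y')) * St (1 - t y')|
              ≤ |v (b y') - v y| + |v (b y') - v (a y')| * |St (1 - t y')| := by
                rw [← abs_mul]
                exact abs_sub _ _
            _ ≤ ε / 3 * (y - b y') + |v (b y') - v (a y')| * (3 * (1 - t y') * (1 - t y')) := by
                rw [abs_sub_comm (v (b y')) (v y)]
                gcongr
            _ = ε / 3 * (y - b y') + 3 * (1 - t y') * (|v (b y') - v (a y')| * (1 - t y')) := by
                ring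
            _ ≤ ε / 3 * (y - b y') + 3 * (1 - t y') * (ε / 3 * (b y' - a y')) := by gcongr
            _ = ε / 3 * (y - b y') + ε * ((1 - t y') * (b y' - a y')) := by ring
            _ = ε / 3 * (y - b y') + ε * (b y' - y') := by rw [e2]
            _ ≤ ε * (y - y') := by nlinarith
    · obtain ⟨g1, g2⟩ := (hab y).lt hy
      have g3 : b y - a y ≠ 0 := by
        intro h
        linarith
      have h3 : HasDerivAt (fun y' : ℝ => (y' - a y) / (b y - a y)) (1 / (b y - a y)) y :=
        ((hasDerivAt_id y).sub_const (a y)).div_const _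
      have h4 : HasDerivAt (fun y' => v (a y) + (v (b y) - v (a y)) * St ((y' - a y) / (b y - a y)))
          ((v (b y) - v (a y)) * (6 * t y * (1 - t y) * (1 / (b y - a y)))) y :=
        (((HasDerivAt.comp (h₂ := St) (h := fun y' : ℝ => (y' - a y) / (b y - a y)) y
          (St_der (t y)) h3)).const_mul _).const_add _
      have h5 : (v (b y) - v (a y)) * (6 * t y * (1 - t y) * (1 / (b y - a y))) = D y := by
        rw [hD]
        simp only
        ring
      rw [h5] at h4
      refine h4.congr_of_eventuallyEq ?_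
      filter_upwards [hoff y hy] with y' hy'
      rw [hV]
      simp only
      rw [ht]
      simp only
      rw [hy'.1, hy'.2]
  have hcont : Continuous D := by
    rw [continuous_iff_continuousAt]
    intro y
    by_cases hy : y ∈ C
    · rw [ContinuousAt, hDC y hy, Metric.tendsto_nhds]
      intro ε hε
      obtain ⟨δ, hδ, k1, k2⟩ := key (ε / 12) (by positivity)
      filter_upwards [Metric.ball_mem_nhds y hδ] with y' hy'
      rw [Metric.mem_ball, Real.dist_eq, abs_lt] at hy'
      rw [Real.dist_eq, sub_zero]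
      by_cases hyC : y' ∈ C
      · rw [hDC y' hyC, abs_zero]
        exact hε
      · have g := hab y'
        obtain ⟨g1, g2⟩ := g.lt hyC
        have g3 : 0 < b y' - a y' := by linarith
        have ht0 : 0 ≤ t y' := div_nonneg (by linarith) g3.le
        have ht1 : t y' ≤ 1 := (div_le_one g3).2 (by linarith)
        have hs0 : 0 ≤ 1 - t y' := by linarith
        have e4 : |D y'| = 6 * (|v (b y') - v (a y')| * t y' * (1 - t y')) / (b y' - a y') := by
          rw [hD]
          simp only
          rw [abs_mul, abs_div, abs_of_pos g3, abs_of_nonneg (by positivity :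
            0 ≤ 6 * t y' * (1 - t y'))]
          ring
        have h7 : |v (b y') - v (a y')| * t y' * (1 - t y') ≤ ε / 12 * (b y' - a y') := by
          rcases le_total y y' with h3 | h3
          · have h4 : y ≤ a y' := g.la y hy h3
            have h6 := (k2 y' hyC).1 (by linarith)
            calc |v (b y') - v (a y')| * t y' * (1 - t y') ≤
                |v (b y') - v (a y')| * t y' * 1 := by
                  gcongr
                  linarith
              _ ≤ _ := by rw [mul_one]; exact h6
          · have h4 : b y' ≤ y := g.lb y hy h3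
            have h6 := (k2 y' hyC).2 (by linarith)
            calc |v (b y') - v (a y')| * t y' * (1 - t y') ≤
                |v (b y') - v (a y')| * 1 * (1 - t y') := by gcongr
              _ ≤ _ := by rw [mul_one]; exact h6
        rw [e4, div_lt_iff₀ g3]
        nlinarith
    · have h3 : ContinuousAt (fun y' => (v (b y) - v (a y)) / (b y - a y) *
          (6 * ((y' - a y) / (b y - a y)) * (1 - (y' - a y) / (b y - a y)))) y := by
        have : Continuous (fun y' : ℝ => (v (b y) - v (a y)) / (b y - a y) *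
          (6 * ((y' - a y) / (b y - a y)) * (1 - (y' - a y) / (b y - a y)))) := by fun_prop
        exact this.continuousAt
      refine h3.congr ?_
      filter_upwards [hoff y hy] with y' hy'
      rw [hD]
      simp only
      rw [ht]
      simp only
      rw [hy'.1, hy'.2]
  refine ⟨V, ?_, hVC⟩
  rw [contDiff_one_iff_deriv]
  refine ⟨fun y => (hder y).differentiableAt, ?_⟩
  have : deriv V = D := funext fun y => (hder y).deriv
  rw [this]
  exact hcont

end gaps

/-! ### Egorov's theorem for the difference quotients -/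

theorem egorov {f : ℝ → ℝ} {K : ℝ≥0} (hf : LipschitzWith K f) (L : ℝ) {η : ℝ} (hη : 0 < η) :
    ∃ C : Set ℝ, IsCompact C ∧ C ⊆ Set.Icc (-L) L ∧
      volume (Set.Icc (-L) L \ C) ≤ ENNReal.ofReal η ∧ ContinuousOn (deriv f) C ∧
      ∀ ε : ℝ, 0 < ε → ∃ δ : ℝ, 0 < δ ∧ ∀ x ∈ C, ∀ h : ℝ, 0 < h → h < δ →
        |f (x + h) - f x - deriv f x * h| ≤ ε * h := by
  set q : ℕ → ℝ → ℝ := fun n x => ((n : ℝ) + 1) * (f (x + 1 / ((n : ℝ) + 1)) - f x) with hq
  have qc : ∀ n, Continuous (q n) := by
    intro n
    have := hf.continuous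
    fun_prop
  have hlim : ∀ᵐ x : ℝ, x ∈ Set.Icc (-L) L → Tendsto (fun n => q n x) atTop (𝓝 (deriv f x)) := by
    filter_upwards [hf.ae_differentiableAt_of_real] with x hx _
    have h1 := hx.hasDerivAt.tendsto_slope_zero
    have h2 : Tendsto (fun n : ℕ => 1 / ((n : ℝ) + 1)) atTop (𝓝[≠] 0) :=
      tendsto_nhdsWithin_iff.2 ⟨tendsto_one_div_add_atTop_nhds_zero_nat,
        Eventually.of_forall fun n => (Nat.one_div_pos_of_nat).ne'⟩
    refine (h1.comp h2).congr fun n => ?_
    simp only [Function.comp, smul_eq_mul, one_div, inv_inv]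
    rw [hq]
    simp only [one_div]
  obtain ⟨s, hs1, hs2, hs3, hs4⟩ := tendstoUniformlyOn_of_ae_tendsto (μ := volume)
    (fun n => (qc n).stronglyMeasurable) (measurable_deriv f).stronglyMeasurable
    measurableSet_Icc (by rw [Real.volume_Icc]; exact ENNReal.ofReal_ne_top) hlim
    (show (0 : ℝ) < η / 2 by positivity)
  have hm : MeasurableSet (Set.Icc (-L) L \ s) := measurableSet_Icc.diff hs2
  have hfin : volume (Set.Icc (-L) L \ s) ≠ ∞ :=
    ((measure_mono Set.diff_subset).trans_lt (by
      rw [Real.volume_Icc]; exact ENNReal.ofReal_lt_top)).ne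
  obtain ⟨C, hC1, hC2, hC3⟩ := hm.exists_isCompact_diff_lt hfin
    (ε := ENNReal.ofReal (η / 2)) (by
      rw [ne_eq, ENNReal.ofReal_eq_zero]
      linarith)
  have hu := hs4.mono hC1
  refine ⟨C, hC2, fun x hx => (hC1 hx).1, ?_, hu.continuousOn (Frequently.of_forall fun n =>
    (qc n).continuousOn), ?_⟩
  · have h1 : Set.Icc (-L) L \ C ⊆ s ∪ ((Set.Icc (-L) L \ s) \ C) := by
      intro x hx
      by_cases hxs : x ∈ s
      · exact Or.inl hxs
      · exact Or.inr ⟨⟨hx.1, hxs⟩, hx.2⟩
    refine (measure_mono h1).trans ((measure_union_le _ _).trans ?_)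
    have h2 : ENNReal.ofReal η = ENNReal.ofReal (η / 2) + ENNReal.ofReal (η / 2) := by
      rw [← ENNReal.ofReal_add (by positivity) (by positivity)]
      congr 1
      ring
    rw [h2]
    exact add_le_add hs3 hC3.le
  · intro ε hε
    rw [Metric.tendstoUniformlyOn_iff] at hu
    obtain ⟨N1, hN1⟩ := eventually_atTop.1 (hu (ε / 4) (by positivity))
    obtain ⟨N2, hN2⟩ := exists_nat_gt (4 * (K : ℝ) / ε)
    set N := max N1 N2 with hN
    refine ⟨1 / ((N : ℝ) + 1), Nat.one_div_pos_of_nat, fun x hx h h0 h1 => ?_⟩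
    -- the index
    have hN0 : (0 : ℝ) < (N : ℝ) + 1 := by positivity
    have h2 : (N : ℝ) + 1 < h⁻¹ := by
      rw [lt_inv_comm₀ hN0 h0, ← one_div]
      exact h1
    have h3 : N + 1 ≤ ⌊h⁻¹⌋₊ := Nat.le_floor (by push_cast; exact h2.le)
    obtain ⟨n, hn⟩ : ∃ n, ⌊h⁻¹⌋₊ = n + 1 := ⟨⌊h⁻¹⌋₊ - 1, by omega⟩
    have hnN : N ≤ n := by omega
    have h4 : ((n : ℝ) + 1) ≤ h⁻¹ := by
      have := Nat.floor_le (inv_nonneg.2 h0.le)
      rw [hn] at this
      push_cast at this
      exact this
    have h5 : h⁻¹ < (n : ℝ) + 1 + 1 := by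
      have := Nat.lt_floor_add_one h⁻¹
      rw [hn] at this
      push_cast at this
      exact this
    set n1 : ℝ := (n : ℝ) + 1 with hn1
    have n0 : 0 < n1 := by positivity
    have h6 : n1 * h ≤ 1 := by
      calc n1 * h ≤ h⁻¹ * h := by gcongr
        _ = 1 := inv_mul_cancel₀ h0.ne'
    have h7 : 1 < (n1 + 1) * h := by
      calc (1 : ℝ) = h⁻¹ * h := (inv_mul_cancel₀ h0.ne').symm
        _ < (n1 + 1) * h := by gcongr
    set k : ℝ := 1 / n1 with hk
    have hkn : n1 * k = 1 := by rw [hk]; field_simp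
    have k1 : h ≤ k := by
      rw [hk, le_div_iff₀ n0]
      linarith
    have k2 : k - h ≤ h / n1 := by
      rw [le_div_iff₀ n0]
      nlinarith
    have k3 : k ≤ 2 * h := by
      have : h / n1 ≤ h := div_le_self h0.le (by rw [hn1]; linarith [Nat.cast_nonneg (α := ℝ) n])
      linarith
    have hK : |deriv f x| ≤ K := norm_deriv_le_of_lipschitz hf
    have e1 : f (x + k) - f x = k * q n x := by
      rw [hq]
      simp only
      rw [← hn1, ← hk]
      linear_combination (-(f (x + k) - f x)) * hkn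
    have e2 : |q n x - deriv f x| ≤ ε / 4 := by
      have := hN1 n ((le_max_left _ _).trans hnN) x hx
      rw [Real.dist_eq, abs_sub_comm] at this
      exact this.le
    have e3 : |f (x + h) - f (x + k)| ≤ K * (k - h) := by
      have := hf.dist_le_mul (x + h) (x + k)
      rw [Real.dist_eq, Real.dist_eq] at this
      rwa [show x + h - (x + k) = -(k - h) by ring, abs_neg,
        abs_of_nonneg (show 0 ≤ k - h by linarith)] at this
    have e4 : f (x + h) - f x - deriv f x * h = (f (x + h) - f (x + k)) +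
        k * (q n x - deriv f x) + deriv f x * (k - h) := by
      linear_combination e1
    have e5 : 2 * (K : ℝ) * (k - h) ≤ ε / 2 * h := by
      have h8 : 4 * (K : ℝ) / ε < n1 := by
        have h9 : (N2 : ℝ) ≤ n := by exact_mod_cast (le_max_right _ _).trans hnN
        rw [hn1]
        linarith
      have h9 : 4 * (K : ℝ) < ε * n1 := by
        rw [div_lt_iff₀ hε] at h8
        linarith
      calc 2 * (K : ℝ) * (k - h) ≤ 2 * (K : ℝ) * (h / n1) := by gcongr
        _ = (2 * (K : ℝ) * h) / n1 := by ring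
        _ ≤ ε / 2 * h := by
            rw [div_le_iff₀ n0]
            nlinarith
    rw [e4]
    calc |f (x + h) - f (x + k) + k * (q n x - deriv f x) + deriv f x * (k - h)|
        ≤ |f (x + h) - f (x + k)| + |k * (q n x - deriv f x)| + |deriv f x * (k - h)| :=
          abs_add_three _ _ _
      _ ≤ K * (k - h) + k * (ε / 4) + K * (k - h) := by
          rw [abs_mul, abs_mul, abs_of_nonneg (by linarith : 0 ≤ k), abs_of_nonneg
            (by linarith : 0 ≤ k - h)]
          gcongr
      _ ≤ ε * h := by nlinarith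

theorem w1 : Pool.Agent.Helper26.Cc.S_W1 := by
  intro f K hf L η hη
  obtain ⟨C0, hC1, hC2, hC3, hC4, hC5⟩ := egorov hf L hη
  rcases C0.eq_empty_or_nonempty with h0 | h0
  · refine ⟨fun _ => 0, contDiff_const, ?_⟩
    rw [h0, Set.diff_empty] at hC3
    exact (measure_mono fun x hx => hx.1).trans hC3
  -- extension of the derivative
  obtain ⟨G, hG⟩ := ContinuousMap.exists_restrict_eq hC1.isClosed
    (⟨C0.restrict (deriv f), continuousOn_iff_continuous_restrict.1 hC4⟩ : C(C0, ℝ))
  have hG' : ∀ x ∈ C0, G x = deriv f x := fun x hx => by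
    have := congrArg (fun φ : C(C0, ℝ) => φ ⟨x, hx⟩) hG
    exact this
  set Γ : ℝ → ℝ := fun x => ∫ s in (0 : ℝ)..x, G s with hΓ
  have hΓd : ∀ x, HasDerivAt Γ (G x) x := fun x =>
    (G.continuous.integral_hasStrictDerivAt 0 x).hasDerivAt
  have hΓ1 : ContDiff ℝ 1 Γ := by
    rw [contDiff_one_iff_deriv]
    refine ⟨fun x => (hΓd x).differentiableAt, ?_⟩
    have : deriv Γ = G := funext fun y => (hΓd y).deriv
    rw [this]
    exact G.continuous
  -- the difference
  set A := sInf C0 with hA
  set B := sSup C0 with hB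
  have hAm : A ∈ C0 := hC1.sInf_mem h0
  have hBm : B ∈ C0 := hC1.sSup_mem h0
  have hAB : ∀ x ∈ C0, A ≤ x ∧ x ≤ B := fun x hx =>
    ⟨csInf_le hC1.bddBelow hx, le_csSup hC1.bddAbove hx⟩
  set cl : ℝ → ℝ := fun x => max A (min x B) with hcl
  set C : Set ℝ := C0 ∪ (Set.Iic A ∪ Set.Ici B) with hCd
  have hABle : A ≤ B := (hAB A hAm).2
  have hclC : ∀ x ∈ C, cl x ∈ C0 := by
    intro x hx
    rcases hx with hx | hx | hx
    · have := hAB x hx
      rw [hcl]
      simp only
      rw [min_eq_left this.2, max_eq_right this.1]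
      exact hx
    · rw [hcl]
      simp only
      rw [min_eq_left (hx.trans hABle), max_eq_left hx]
      exact hAm
    · rw [hcl]
      simp only
      rw [min_eq_right hx, max_eq_right hABle]
      exact hBm
  have hcl0 : ∀ x ∈ C0, cl x = x := by
    intro x hx
    have := hAB x hx
    rw [hcl]
    simp only
    rw [min_eq_left this.2, max_eq_right this.1]
  have hclmono : ∀ x y : ℝ, x ≤ y → cl x ≤ cl y ∧ cl y - cl x ≤ y - x := by
    intro x y hxy
    rw [hcl]
    simp only
    constructor
    · exact max_le_max le_rfl (min_le_min hxy le_rfl)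
    · rcases le_total x B with h1 | h1 <;> rcases le_total y B with h2 | h2 <;>
        rcases le_total A x with h3 | h3 <;> rcases le_total A y with h4 | h4 <;>
        simp only [min_eq_left, min_eq_right, max_eq_left, max_eq_right, h1, h2, h3, h4, hABle] <;>
        linarith
  set v : ℝ → ℝ := fun x => f (cl x) - Γ (cl x) with hv
  -- bounds of `G`
  obtain ⟨Mg, hMg⟩ := (isCompact_Icc (a := A) (b := B)).exists_bound_of_continuousOn
    G.continuous.continuousOn
  have hGd : ∀ x y z : ℝ, A ≤ x → x ≤ y → y ≤ B → ∀ ε : ℝ,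
      (∀ s ∈ Set.Icc x y, |G s - z| ≤ ε) → |Γ y - Γ x - z * (y - x)| ≤ ε * (y - x) := by
    intro x y z _ hxy _ ε hε
    have h1 : Γ y - Γ x = ∫ s in x..y, G s := by
      rw [hΓ]
      simp only
      rw [intervalIntegral.integral_interval_sub_left (G.continuous.intervalIntegrable _ _)
        (G.continuous.intervalIntegrable _ _)]
    have h2 : Γ y - Γ x - z * (y - x) = ∫ s in x..y, (G s - z) := by
      rw [intervalIntegral.integral_sub (G.continuous.intervalIntegrable _ _)
        (intervalIntegrable_const), intervalIntegral.integral_const, h1, smul_eq_mul]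
      ring
    rw [h2]
    have h3 := intervalIntegral.norm_integral_le_of_norm_le_const (a := x) (b := y)
      (f := fun s => G s - z) (C := ε) (fun s hs => by
        rw [Set.uIoc_of_le hxy] at hs
        exact hε s ⟨hs.1.le, hs.2⟩)
    rwa [abs_of_nonneg (sub_nonneg.2 hxy)] at h3
  obtain ⟨V, hV1, hV2⟩ := interp (C := C)
    (hC1.isClosed.union (isClosed_Iic.union isClosed_Ici))
    (fun y => ⟨min y A, Or.inr (Or.inl (Set.mem_Iic.2 (min_le_right _ _))), min_le_left _ _⟩)
    (fun y => ⟨max y B, Or.inr (Or.inr (Set.mem_Ici.2 (le_max_right _ _))), le_max_left _ _⟩) v (K + Mg)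
    (by
      intro x hx y hy hxy
      obtain ⟨m1, m2⟩ := hclmono x y hxy
      have hx' := hAB _ (hclC x hx)
      have hy' := hAB _ (hclC y hy)
      have h1 : |f (cl y) - f (cl x)| ≤ K * (cl y - cl x) := by
        have := hf.dist_le_mul (cl y) (cl x)
        rw [Real.dist_eq, Real.dist_eq] at this
        rwa [abs_of_nonneg (sub_nonneg.2 m1)] at this
      have h2 := hGd (cl x) (cl y) 0 hx'.1 m1 hy'.2 Mg (fun s hs => by
        rw [sub_zero]
        exact hMg s ⟨hx'.1.trans hs.1, hs.2.trans hy'.2⟩)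
      rw [zero_mul, sub_zero] at h2
      have hMg0 : 0 ≤ Mg := (norm_nonneg _).trans (hMg A ⟨le_rfl, hABle⟩)
      have e1 : v y - v x = (f (cl y) - f (cl x)) - (Γ (cl y) - Γ (cl x)) := by
        rw [hv]
        simp only
        ring
      rw [e1]
      calc |f (cl y) - f (cl x) - (Γ (cl y) - Γ (cl x))| ≤
          |f (cl y) - f (cl x)| + |Γ (cl y) - Γ (cl x)| := abs_sub _ _
        _ ≤ K * (cl y - cl x) + Mg * (cl y - cl x) := add_le_add h1 h2
        _ = (K + Mg) * (cl y - cl x) := by ring
        _ ≤ (K + Mg) * (y - x) := by gcongr)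
    (by
      intro ε hε
      obtain ⟨δ1, hδ1, h1⟩ := hC5 (ε / 2) (by positivity)
      have huc := (isCompact_Icc (a := A) (b := B)).uniformContinuousOn_of_continuous
        G.continuous.continuousOn
      rw [Metric.uniformContinuousOn_iff] at huc
      obtain ⟨δ2, hδ2, h2⟩ := huc (ε / 2) (by positivity)
      refine ⟨min δ1 δ2, lt_min hδ1 hδ2, fun x hx y hy hxy hlt => ?_⟩
      obtain ⟨m1, m2⟩ := hclmono x y hxy
      have hx' := hAB _ (hclC x hx)
      have hy' := hAB _ (hclC y hy)
      have hlt1 : cl y - cl x < δ1 := by linarith [min_le_left δ1 δ2]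
      have hlt2 : cl y - cl x < δ2 := by linarith [min_le_right δ1 δ2]
      have e1 : v y - v x = (f (cl y) - f (cl x) - deriv f (cl x) * (cl y - cl x)) -
          (Γ (cl y) - Γ (cl x) - G (cl x) * (cl y - cl x)) := by
        rw [hG' _ (hclC x hx), hv]
        simp only
        ring
      have h3 : |f (cl y) - f (cl x) - deriv f (cl x) * (cl y - cl x)| ≤
          ε / 2 * (cl y - cl x) := by
        rcases m1.eq_or_lt with h4 | h4
        · rw [← h4]
          simp
        · have := h1 (cl x) (hclC x hx) (cl y - cl x) (by linarith) hlt1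
          rwa [add_sub_cancel] at this
      have h4 := hGd (cl x) (cl y) (G (cl x)) hx'.1 m1 hy'.2 (ε / 2) (fun s hs => by
        have := h2 s ⟨hx'.1.trans hs.1, hs.2.trans hy'.2⟩ (cl x) hx' (by
          rw [Real.dist_eq, abs_of_nonneg (by linarith [hs.1])]
          linarith [hs.2])
        rw [Real.dist_eq] at this
        exact this.le)
      rw [e1]
      calc |f (cl y) - f (cl x) - deriv f (cl x) * (cl y - cl x) -
            (Γ (cl y) - Γ (cl x) - G (cl x) * (cl y - cl x))| ≤
          |f (cl y) - f (cl x) - deriv f (cl x) * (cl y - cl x)| +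
            |Γ (cl y) - Γ (cl x) - G (cl x) * (cl y - cl x)| := abs_sub _ _
        _ ≤ ε / 2 * (cl y - cl x) + ε / 2 * (cl y - cl x) := add_le_add h3 h4
        _ = ε * (cl y - cl x) := by ring
        _ ≤ ε * (y - x) := by gcongr)
  refine ⟨fun x => V x + Γ x, hV1.add hΓ1, ?_⟩
  refine (measure_mono fun x hx => ?_).trans hC3
  refine ⟨hx.1, fun hxC => hx.2 ?_⟩
  show f x = V x + Γ x
  rw [hV2 x (Or.inl hxC), hv]
  simp only
  rw [hcl0 x hxC]
  ring

end Pool.Agent.Helper41.Cc
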