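import Mathlib

/-!
# STR, scalar part: the kernels of the two resolvents along a curve
-/

set_option autoImplicit false

open MeasureTheory Filter Topology
open scoped ComplexConjugate

namespace Pool.Agent.Helper41.Cc

/-- the data of a curve -/
structure Cu (h f g : ℝ → ℝ) (m M : ℝ) : Prop where
  hf : ∀ x, f (h x) = x
  fh : ∀ E, h (f E) = E
  der : ∀ E, HasDerivAt f (g E) E
  cont : Continuous g
  m0 : 0 < m
  lo : ∀ E, m ≤ |g E|
  up : ∀ E, |g E| ≤ M

/-- the difference of the kernels -/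
noncomputable def ph (h f g : ℝ → ℝ) (ε E l : ℝ) : ℂ :=
  ((h l : ℂ) - ((E : ℂ) + (ε : ℂ) * Complex.I))⁻¹ -
    (g E : ℂ) * ((l : ℂ) - ((f E : ℂ) + ((g E * ε : ℝ) : ℂ) * Complex.I))⁻¹

variable {h f g : ℝ → ℝ} {m M : ℝ}

namespace Cu

lemma mvt (c : Cu h f g m M) (x y : ℝ) : ∃ ξ, f x - f y = g ξ * (x - y) := by
  have key : ∀ a b : ℝ, a < b → ∃ ξ, f b - f a = g ξ * (b - a) := by
    intro a b hab
    obtain ⟨ξ, -, hξ⟩ := exists_hasDerivAt_eq_slope f g hab
      (fun x _ => (c.der x).continuousAt.continuousWithinAt) (fun x _ => c.der x)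
    refine ⟨ξ, ?_⟩
    rw [hξ, div_mul_cancel₀ _ (sub_ne_zero.2 hab.ne')]
  rcases lt_trichotomy x y with h1 | h1 | h1
  · obtain ⟨ξ, hξ⟩ := key x y h1
    exact ⟨ξ, by linear_combination (-1 : ℝ) * hξ⟩
  · subst h1
    exact ⟨0, by ring⟩
  · exact key y x h1

lemma low (c : Cu h f g m M) (x y : ℝ) : m * |x - y| ≤ |f x - f y| := by
  obtain ⟨ξ, hξ⟩ := c.mvt x y
  rw [hξ, abs_mul]
  exact mul_le_mul_of_nonneg_right (c.lo ξ) (abs_nonneg _)

lemma f_cont (c : Cu h f g m M) : Continuous f :=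
  continuous_iff_continuousAt.2 fun x => (c.der x).continuousAt

lemma h_cont (c : Cu h f g m M) : Continuous h := by
  have : LipschitzWith (Real.toNNReal m⁻¹) h := by
    refine LipschitzWith.of_dist_le_mul fun x y => ?_
    rw [Real.dist_eq, Real.dist_eq, Real.coe_toNNReal _ (inv_nonneg.2 c.m0.le)]
    have h1 := c.low (h x) (h y)
    rw [c.hf, c.hf] at h1
    rw [inv_mul_eq_div, le_div_iff₀ c.m0, mul_comm]
    exact h1
  exact this.continuous

lemma g_ne (c : Cu h f g m M) (E : ℝ) : g E ≠ 0 := by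
  intro h0
  have := c.lo E
  rw [h0, abs_zero] at this
  linarith [c.m0]

lemma M0 (c : Cu h f g m M) : 0 < M := c.m0.trans_le ((c.lo 0).trans (c.up 0))

lemma mM (c : Cu h f g m M) : m ≤ M := (c.lo 0).trans (c.up 0)

end Cu

lemma den_ne {x E ε : ℝ} (hε : ε ≠ 0) : (x : ℂ) - ((E : ℂ) + (ε : ℂ) * Complex.I) ≠ 0 := by
  intro h0
  have := congrArg Complex.im h0
  simp at this
  exact hε this

lemma ph_cont (c : Cu h f g m M) {ε : ℝ} (hε : 0 < ε) :
    Continuous fun p : ℝ × ℝ => ph h f g ε p.1 p.2 := by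
  unfold ph
  have hh := c.h_cont
  have hf := c.f_cont
  have hg := c.cont
  refine Continuous.sub (Continuous.inv₀ ?_ fun p => den_ne hε.ne')
    (Continuous.mul ?_ (Continuous.inv₀ ?_ fun p => den_ne (mul_ne_zero (c.g_ne _) hε.ne')))
  · fun_prop
  · fun_prop
  · fun_prop

/-- the kernel in normal form -/
lemma ph_eq (c : Cu h f g m M) {ε : ℝ} (_hε : 0 < ε) (E l : ℝ) :
    ph h f g ε E l = (((h l - E : ℝ) : ℂ) - (ε : ℂ) * Complex.I)⁻¹ -
      ((((l - f E) / g E : ℝ) : ℂ) - (ε : ℂ) * Complex.I)⁻¹ := by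
  have hg : (g E : ℂ) ≠ 0 := Complex.ofReal_ne_zero.2 (c.g_ne E)
  unfold ph
  congr 1
  · congr 1
    push_cast
    ring
  · rw [← inv_inv (g E : ℂ), ← mul_inv]
    congr 1
    push_cast
    field_simp
    ring

lemma normsq_inv (u ε : ℝ) : ‖((u : ℂ) - (ε : ℂ) * Complex.I)⁻¹‖ ^ 2 = (u ^ 2 + ε ^ 2)⁻¹ := by
  rw [norm_inv, inv_pow, ← Complex.normSq_eq_norm_sq, Complex.normSq_apply]
  simp
  ring

/-- the bound of the kernel -/
lemma ph_le (c : Cu h f g m M) {ε : ℝ} (hε : 0 < ε) (E l : ℝ) :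
    ‖ph h f g ε E l‖ ^ 2 ≤ 4 * ((m / M) ^ 2 * (h l - E) ^ 2 + ε ^ 2)⁻¹ := by
  rw [ph_eq c hε]
  set a := (((h l - E : ℝ) : ℂ) - (ε : ℂ) * Complex.I)⁻¹ with ha
  set b := ((((l - f E) / g E : ℝ) : ℂ) - (ε : ℂ) * Complex.I)⁻¹ with hb
  have h1 : ‖a - b‖ ^ 2 ≤ 2 * ‖a‖ ^ 2 + 2 * ‖b‖ ^ 2 := by
    have h2 := norm_sub_le a b
    nlinarith [norm_nonneg a, norm_nonneg b, norm_nonneg (a - b), sq_nonneg (‖a‖ - ‖b‖)]
  have hM := c.M0
  have hm := c.m0
  have hε2 : 0 < ε ^ 2 := by positivity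
  have hc1 : (m / M) ^ 2 ≤ 1 := by
    have : m / M ≤ 1 := (div_le_one hM).2 c.mM
    have h0 : 0 ≤ m / M := by positivity
    nlinarith
  have h3 : ‖a‖ ^ 2 ≤ ((m / M) ^ 2 * (h l - E) ^ 2 + ε ^ 2)⁻¹ := by
    rw [ha, normsq_inv]
    refine inv_anti₀ (by positivity) ?_
    nlinarith [sq_nonneg (h l - E)]
  have h4 : ‖b‖ ^ 2 ≤ ((m / M) ^ 2 * (h l - E) ^ 2 + ε ^ 2)⁻¹ := by
    rw [hb, normsq_inv]
    refine inv_anti₀ (by positivity) ?_
    have h5 : (m / M) ^ 2 * (h l - E) ^ 2 ≤ ((l - f E) / g E) ^ 2 := by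
      rw [← mul_pow, sq_le_sq, abs_mul, abs_div, abs_of_pos hm, abs_of_pos hM, abs_div]
      have h6 := c.low (h l) E
      rw [c.hf] at h6
      have h7 := c.up E
      have h8 : 0 < |g E| := abs_pos.2 (c.g_ne E)
      rw [le_div_iff₀ h8]
      calc m / M * |h l - E| * |g E| ≤ m / M * |h l - E| * M := by gcongr
        _ = m * |h l - E| := by field_simp
        _ ≤ _ := h6
    linarith
  linarith

/-- the bound after the change of variables -/
lemma ph_le' (c : Cu h f g m M) {ε : ℝ} (hε : 0 < ε) (v l : ℝ) :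
    ε ^ 2 * ‖ph h f g ε (h l - ε * v) l‖ ^ 2 ≤ 4 * (1 + (m / M * v) ^ 2)⁻¹ := by
  have h1 := ph_le c hε (h l - ε * v) l
  have hε2 : 0 < ε ^ 2 := by positivity
  calc ε ^ 2 * ‖ph h f g ε (h l - ε * v) l‖ ^ 2
      ≤ ε ^ 2 * (4 * ((m / M) ^ 2 * (h l - (h l - ε * v)) ^ 2 + ε ^ 2)⁻¹) := by gcongr
    _ = 4 * (1 + (m / M * v) ^ 2)⁻¹ := by
        have h2 : (m / M) ^ 2 * (h l - (h l - ε * v)) ^ 2 + ε ^ 2 =
            ε ^ 2 * (1 + (m / M * v) ^ 2) := by ring
        rw [h2, mul_inv]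
        field_simp

lemma int_dom (c : Cu h f g m M) : Integrable fun v : ℝ => 4 * (1 + (m / M * v) ^ 2)⁻¹ := by
  have hc : m / M ≠ 0 := (div_pos c.m0 c.M0).ne'
  exact (integrable_inv_one_add_sq.comp_mul_left' hc).const_mul 4

lemma ph_int (c : Cu h f g m M) {ε : ℝ} (hε : 0 < ε) (l : ℝ) :
    Integrable fun E : ℝ => ‖ph h f g ε E l‖ ^ 2 := by
  have h1 : Integrable fun v : ℝ => ‖ph h f g ε (h l - ε * v) l‖ ^ 2 := by
    refine (((int_dom c).const_mul (ε ^ 2)⁻¹)).mono' ?_ (Eventually.of_forall fun v => ?_)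
    · have h2 := (ph_cont c hε).comp (by fun_prop :
        Continuous fun v : ℝ => ((h l - ε * v, l) : ℝ × ℝ))
      exact (h2.norm.pow 2).aestronglyMeasurable
    · rw [Real.norm_of_nonneg (by positivity)]
      have h2 := ph_le' c hε v l
      have hε2 : 0 < ε ^ 2 := by positivity
      rw [inv_mul_eq_div, le_div_iff₀ hε2, mul_comm]
      exact h2
  have h2 : Integrable fun u : ℝ => ‖ph h f g ε (h l - u) l‖ ^ 2 :=
    (integrable_comp_mul_left_iff (fun u : ℝ => ‖ph h f g ε (h l - u) l‖ ^ 2) hε.ne').1 h1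
  have h3 := h2.comp_sub_left (h l)
  simpa using h3

lemma ph_change (c : Cu h f g m M) {ε : ℝ} (hε : 0 < ε) (l : ℝ) :
    ε * ∫ E : ℝ, ‖ph h f g ε E l‖ ^ 2 =
      ∫ v : ℝ, ε ^ 2 * ‖ph h f g ε (h l - ε * v) l‖ ^ 2 := by
  have h1 : ∫ E : ℝ, ‖ph h f g ε E l‖ ^ 2 = ∫ u : ℝ, ‖ph h f g ε (h l - u) l‖ ^ 2 :=
    (integral_sub_left_eq_self (fun E : ℝ => ‖ph h f g ε E l‖ ^ 2) volume (h l)).symm
  have h2 := Measure.integral_comp_mul_left (fun u : ℝ => ‖ph h f g ε (h l - u) l‖ ^ 2) ε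
  rw [integral_const_mul, h2, h1, abs_of_pos (inv_pos.2 hε), smul_eq_mul]
  field_simp

/-- the uniform bound -/
lemma ph_bd (c : Cu h f g m M) {ε : ℝ} (hε : 0 < ε) (l : ℝ) :
    ε * ∫ E : ℝ, ‖ph h f g ε E l‖ ^ 2 ≤ ∫ v : ℝ, 4 * (1 + (m / M * v) ^ 2)⁻¹ := by
  rw [ph_change c hε]
  exact integral_mono_of_nonneg (Eventually.of_forall fun v => by positivity) (int_dom c)
    (Eventually.of_forall fun v => ph_le' c hε v l)

/-- the pointwise limit -/
lemma ph_lim (c : Cu h f g m M) {e : ℕ → ℝ} (he : ∀ k, 0 < e k) (he0 : Tendsto e atTop (𝓝 0))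
    (l v : ℝ) : Tendsto (fun k => e k ^ 2 * ‖ph h f g (e k) (h l - e k * v) l‖ ^ 2) atTop
      (𝓝 0) := by
  -- the slope
  have h1 : Tendsto (fun k => (l - f (h l - e k * v)) / g (h l - e k * v) / e k) atTop (𝓝 v) := by
    have h2 : HasDerivAt (fun t : ℝ => f (h l - t * v)) (g (h l - 0 * v) * (-(1 * v))) 0 := by
      have h3 : HasDerivAt (fun t : ℝ => h l - t * v) (-(1 * v)) 0 :=
        ((hasDerivAt_id (0 : ℝ)).mul_const v).const_sub (h l)
      exact (c.der (h l - 0 * v)).comp 0 h3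
    have h3 := h2.tendsto_slope_zero
    have h4 : Tendsto e atTop (𝓝[≠] 0) :=
      tendsto_nhdsWithin_iff.2 ⟨he0, Eventually.of_forall fun k => (he k).ne'⟩
    have h5 := h3.comp h4
    have h6 : Tendsto (fun k => g (h l - e k * v)) atTop (𝓝 (g (h l))) := by
      have : Tendsto (fun k => h l - e k * v) atTop (𝓝 (h l - 0 * v)) :=
        (he0.mul_const v).const_sub (h l)
      rw [zero_mul, sub_zero] at this
      exact (c.cont.tendsto _).comp this
    have h7 := (h5.neg.div h6 (c.g_ne _))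
    have h8 : -(g (h l - 0 * v) * (-(1 * v))) / g (h l) = v := by
      rw [zero_mul, sub_zero]
      field_simp [c.g_ne (h l)]
    rw [h8] at h7
    refine h7.congr fun k => ?_
    have hg := c.g_ne (h l - e k * v)
    have hk := (he k).ne'
    simp only [Function.comp, zero_add, zero_mul, sub_zero, smul_eq_mul, Pi.div_apply]
    rw [c.hf]
    field_simp
    ring
  have h2 : Tendsto (fun k : ℕ => ‖((v : ℂ) - Complex.I)⁻¹ -
      ((((l - f (h l - e k * v)) / g (h l - e k * v) / e k : ℝ) : ℂ) - Complex.I)⁻¹‖ ^ 2) atTop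
      (𝓝 0) := by
    have h3 : Tendsto (fun k : ℕ =>
        ((((l - f (h l - e k * v)) / g (h l - e k * v) / e k : ℝ) : ℂ) - Complex.I)) atTop
        (𝓝 ((v : ℂ) - Complex.I)) :=
      ((Complex.continuous_ofReal.tendsto _).comp h1).sub_const _
    have h4 : (v : ℂ) - Complex.I ≠ 0 := by
      intro h0
      have := congrArg Complex.im h0
      simp at this
    have h5 := ((tendsto_const_nhds (x := ((v : ℂ) - Complex.I)⁻¹)).sub (h3.inv₀ h4)).norm.pow 2
    rw [sub_self, norm_zero] at h5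
    simpa using h5
  refine h2.congr fun k => ?_
  have hk : (e k : ℂ) ≠ 0 := Complex.ofReal_ne_zero.2 (he k).ne'
  have h3 : ((v : ℂ) - Complex.I)⁻¹ -
      ((((l - f (h l - e k * v)) / g (h l - e k * v) / e k : ℝ) : ℂ) - Complex.I)⁻¹ =
      (e k : ℂ) * ph h f g (e k) (h l - e k * v) l := by
    rw [ph_eq c (he k), mul_sub]
    congr 1
    · have : ((h l - (h l - e k * v) : ℝ) : ℂ) - (e k : ℂ) * Complex.I =
          (e k : ℂ) * ((v : ℂ) - Complex.I) := by
        push_cast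
        ring
      rw [this, mul_inv, ← mul_assoc, mul_inv_cancel₀ hk, one_mul]
    · have : (((l - f (h l - e k * v)) / g (h l - e k * v) : ℝ) : ℂ) - (e k : ℂ) * Complex.I =
          (e k : ℂ) * ((((l - f (h l - e k * v)) / g (h l - e k * v) / e k : ℝ) : ℂ) -
            Complex.I) := by
        push_cast
        field_simp
      rw [this, mul_inv, ← mul_assoc, mul_inv_cancel₀ hk, one_mul]
  rw [h3, norm_mul, mul_pow, Complex.norm_real, Real.norm_of_nonneg (he k).le]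

lemma ph_tendsto (c : Cu h f g m M) {e : ℕ → ℝ} (he : ∀ k, 0 < e k)
    (he0 : Tendsto e atTop (𝓝 0)) (l : ℝ) :
    Tendsto (fun k => e k * ∫ E : ℝ, ‖ph h f g (e k) E l‖ ^ 2) atTop (𝓝 0) := by
  have h1 : Tendsto (fun k => ∫ v : ℝ, e k ^ 2 * ‖ph h f g (e k) (h l - e k * v) l‖ ^ 2) atTop
      (𝓝 (∫ _ : ℝ, (0 : ℝ))) := by
    refine tendsto_integral_of_dominated_convergence _ (fun k => ?_) (int_dom c)
      (fun k => Eventually.of_forall fun v => ?_) (Eventually.of_forall fun v => ph_lim c he he0 l v)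
    · have h2 := (ph_cont c (he k)).comp (by fun_prop :
        Continuous fun v : ℝ => ((h l - e k * v, l) : ℝ × ℝ))
      exact (continuous_const.mul (h2.norm.pow 2)).aestronglyMeasurable
    · rw [Real.norm_of_nonneg (by positivity)]
      exact ph_le' c (he k) v l
  rw [integral_zero] at h1
  refine h1.congr fun k => (ph_change c (he k) l).symm

section meas

variable (μ : Measure ℝ) [IsFiniteMeasure μ]

lemma ph_prod (c : Cu h f g m M) {ε : ℝ} (hε : 0 < ε) :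
    Integrable (fun p : ℝ × ℝ => ‖ph h f g ε p.1 p.2‖ ^ 2) ((volume : Measure ℝ).prod μ) := by
  have hm : AEStronglyMeasurable (fun p : ℝ × ℝ => ‖ph h f g ε p.1 p.2‖ ^ 2)
      ((volume : Measure ℝ).prod μ) := ((ph_cont c hε).norm.pow 2).aestronglyMeasurable
  rw [integrable_prod_iff' hm]
  refine ⟨Eventually.of_forall fun l => ph_int c hε l, ?_⟩
  have h1 : Integrable (fun _ : ℝ => ε⁻¹ * ∫ v : ℝ, 4 * (1 + (m / M * v) ^ 2)⁻¹) μ :=
    integrable_const _
  refine h1.mono' ?_ (Eventually.of_forall fun l => ?_)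
  · exact hm.norm.prod_swap.integral_prod_right'
  · simp only [norm_pow, norm_norm]
    rw [Real.norm_of_nonneg (integral_nonneg fun E => by positivity), inv_mul_eq_div,
      le_div_iff₀ hε, mul_comm]
    exact ph_bd c hε l

/-- the averages are integrable and tend to zero -/
theorem ph_main (c : Cu h f g m M) {e : ℕ → ℝ} (he : ∀ k, 0 < e k)
    (he0 : Tendsto e atTop (𝓝 0)) :
    (∀ k, Integrable fun E : ℝ => ∫ l, ‖ph h f g (e k) E l‖ ^ 2 ∂μ) ∧
      Tendsto (fun k => e k * ∫ E : ℝ, ∫ l, ‖ph h f g (e k) E l‖ ^ 2 ∂μ) atTop (𝓝 0) := by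
  refine ⟨fun k => (ph_prod μ c (he k)).integral_prod_left, ?_⟩
  have h1 : ∀ k, e k * ∫ E : ℝ, ∫ l, ‖ph h f g (e k) E l‖ ^ 2 ∂μ =
      ∫ l, (e k * ∫ E : ℝ, ‖ph h f g (e k) E l‖ ^ 2) ∂μ := by
    intro k
    rw [integral_const_mul, integral_integral_swap (ph_prod μ c (he k))]
  simp only [h1]
  have h2 : Tendsto (fun k => ∫ l, (e k * ∫ E : ℝ, ‖ph h f g (e k) E l‖ ^ 2) ∂μ) atTop
      (𝓝 (∫ _ : ℝ, (0 : ℝ) ∂μ)) := by
    refine tendsto_integral_of_dominated_convergence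
      (fun _ => ∫ v : ℝ, 4 * (1 + (m / M * v) ^ 2)⁻¹) (fun k => ?_) (integrable_const _)
      (fun k => Eventually.of_forall fun l => ?_)
      (Eventually.of_forall fun l => ph_tendsto c he he0 l)
    · have hm : AEStronglyMeasurable (fun p : ℝ × ℝ => ‖ph h f g (e k) p.1 p.2‖ ^ 2)
        ((volume : Measure ℝ).prod μ) := ((ph_cont c (he k)).norm.pow 2).aestronglyMeasurable
      exact (hm.prod_swap.integral_prod_right').const_mul _
    · rw [Real.norm_of_nonneg (mul_nonneg (he k).le (integral_nonneg fun E => by positivity))]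
      exact ph_bd c (he k) l
  rwa [integral_zero] at h2

end meas

end Pool.Agent.Helper41.Cc
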