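import Pool.Agent.Helper26.Cc.Stm
import Pool.Agent.Helper41.Cc.Str1

/-!
# Package LIM of helper26's project CC
-/

set_option autoImplicit false

open MeasureTheory Filter Topology ProbabilityTheory
open scoped BigOperators ENNReal NNReal InnerProductSpace ComplexConjugate

namespace Pool.Agent.Helper41.Cc

open Pool.Agent.H5R2.NB Pool.Agent.Helper26.Rg Pool.Agent.Helper26.Cc
open Pool.Agent.TH369.AN (Rz pt ro cp fc rz_eq rz_uniq rz_norm rank_one pt_sa cp_sa)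
open Pool.Agent.TH369.MU (zk ep)

section

variable {X : Type} [NormedAddCommGroup X] [InnerProductSpace ℂ X] [CompleteSpace X]
  {S : X →L[ℂ] X} {q : X}

/-- the resolvent identity -/
lemma res_id (hS : IsSelfAdjoint S) {z z' : ℂ} (hz : z.im ≠ 0) (hz' : z'.im ≠ 0) (y : X) :
    Rz S z y = Rz S z' y + (z - z') • Rz S z (Rz S z' y) := by
  symm
  have h2 := rz_eq S hS z hz (Rz S z' y)
  have h1 := rz_eq S hS z' hz' y
  refine rz_uniq S hS z hz _ y ?_
  have h3 : S (Rz S z (Rz S z' y)) = Rz S z' y + z • Rz S z (Rz S z' y) := by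
    rw [← sub_eq_iff_eq_add]; exact h2
  have h4 : S (Rz S z' y) = y + z' • Rz S z' y := by
    rw [← sub_eq_iff_eq_add]; exact h1
  rw [map_add, map_smul, h3, h4]
  module

lemma norm_conj (hS : IsSelfAdjoint S) {z : ℂ} (hz : z.im ≠ 0) (y : X) :
    ‖Rz S (conj z) y‖ = ‖Rz S z y‖ := by
  have hz' : (conj z).im ≠ 0 := by rw [Complex.conj_im]; exact neg_ne_zero.2 hz
  have h1 := F_im (e := y) hS hz
  have h2 := F_im (e := y) hS hz'
  rw [rz_adj hS hz, ← inner_conj_symm, Complex.conj_im, Complex.conj_im, h1] at h2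
  have h3 : ‖Rz S (conj z) y‖ ^ 2 = ‖Rz S z y‖ ^ 2 := by
    have : z.im * (‖Rz S (conj z) y‖ ^ 2 - ‖Rz S z y‖ ^ 2) = 0 := by linarith
    have := (mul_eq_zero.1 this).resolve_left hz
    linarith
  exact (sq_eq_sq₀ (norm_nonneg _) (norm_nonneg _)).1 h3

/-- comparison of the values at two heights -/
lemma cmp_F (hS : IsSelfAdjoint S) (q : X) (x : ℝ) {η η' : ℝ} (hη : 0 < η) (hle : η ≤ η') :
    ‖⟪q, Rz S ((x : ℂ) + (η : ℂ) * Complex.I) q⟫_ℂ -
      ⟪q, Rz S ((x : ℂ) + (η' : ℂ) * Complex.I) q⟫_ℂ‖ ≤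
      (η' - η) / η * (⟪q, Rz S ((x : ℂ) + (η' : ℂ) * Complex.I) q⟫_ℂ).im := by
  have hη' : 0 < η' := hη.trans_le hle
  set z : ℂ := (x : ℂ) + (η : ℂ) * Complex.I with hz
  set z' : ℂ := (x : ℂ) + (η' : ℂ) * Complex.I with hz'
  have zi : z.im = η := by rw [hz]; simp
  have zi' : z'.im = η' := by rw [hz']; simp
  have z0 : z.im ≠ 0 := by rw [zi]; exact hη.ne'
  have z0' : z'.im ≠ 0 := by rw [zi']; exact hη'.ne'
  have hd : ‖z - z'‖ = η' - η := by
    have : z - z' = ((-(η' - η) : ℝ) : ℂ) * Complex.I := by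
      rw [hz, hz']
      push_cast
      ring
    rw [this, norm_mul, Complex.norm_I, mul_one, Complex.norm_real, norm_neg,
      Real.norm_of_nonneg (by linarith)]
  have h1 := res_id hS z0 z0' q
  have h2 : ‖Rz S z q‖ ≤ η' / η * ‖Rz S z' q‖ := by
    have h3 : ‖Rz S z (Rz S z' q)‖ ≤ ‖Rz S z' q‖ / η := by
      have := rz_norm S hS z z0 (Rz S z' q)
      rwa [zi, abs_of_pos hη] at this
    calc ‖Rz S z q‖ = ‖Rz S z' q + (z - z') • Rz S z (Rz S z' q)‖ := by rw [← h1]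
      _ ≤ ‖Rz S z' q‖ + ‖(z - z') • Rz S z (Rz S z' q)‖ := norm_add_le _ _
      _ = ‖Rz S z' q‖ + (η' - η) * ‖Rz S z (Rz S z' q)‖ := by rw [norm_smul, hd]
      _ ≤ ‖Rz S z' q‖ + (η' - η) * (‖Rz S z' q‖ / η) := by
          gcongr
      _ = η' / η * ‖Rz S z' q‖ := by field_simp; ring
  have h3 : ⟪q, Rz S z q⟫_ℂ - ⟪q, Rz S z' q⟫_ℂ = (z - z') * ⟪Rz S (conj z) q, Rz S z' q⟫_ℂ := by
    have zc0 : (conj z).im ≠ 0 := by rw [Complex.conj_im]; exact neg_ne_zero.2 z0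
    have h4 := rz_adj hS zc0 q (Rz S z' q)
    rw [Complex.conj_conj] at h4
    rw [← h4]
    conv_lhs => rw [h1]
    rw [inner_add_right, inner_smul_right]
    ring
  rw [h3, norm_mul, hd, F_im hS z0', zi']
  have h4 : ‖⟪Rz S (conj z) q, Rz S z' q⟫_ℂ‖ ≤ η' / η * ‖Rz S z' q‖ * ‖Rz S z' q‖ := by
    refine (norm_inner_le_norm _ _).trans ?_
    rw [norm_conj hS z0]
    exact mul_le_mul_of_nonneg_right h2 (norm_nonneg _)
  calc (η' - η) * ‖⟪Rz S (conj z) q, Rz S z' q⟫_ℂ‖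
      ≤ (η' - η) * (η' / η * ‖Rz S z' q‖ * ‖Rz S z' q‖) := by
        gcongr
    _ = (η' - η) / η * (η' * ‖Rz S z' q‖ ^ 2) := by ring

variable {T : X →L[ℂ] X} {e : X}

/-- comparison for the Weyl function -/
lemma cmp_wf (hT : IsSelfAdjoint T) (he : ‖e‖ = 1) (x : ℝ) {η η' : ℝ} (hη : 0 < η)
    (hle : η ≤ η') :
    ‖wf T e ((x : ℂ) + (η : ℂ) * Complex.I) - wf T e ((x : ℂ) + (η' : ℂ) * Complex.I)‖ ≤
      (η' - η) + (η' - η) / η * (wf T e ((x : ℂ) + (η' : ℂ) * Complex.I)).im := by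
  have hη' : 0 < η' := hη.trans_le hle
  have z0 : ((x : ℂ) + (η : ℂ) * Complex.I).im ≠ 0 := by simpa using hη.ne'
  have z0' : ((x : ℂ) + (η' : ℂ) * Complex.I).im ≠ 0 := by simpa using hη'.ne'
  have h1 := cmp_F (cp_sa T hT e) ((1 - ro e : X →L[ℂ] X) (T e)) x hη hle
  rw [schur hT he z0, schur hT he z0']
  generalize ⟪(1 - ro e : X →L[ℂ] X) (T e), Rz (cp T e) ((x : ℂ) + (η : ℂ) * Complex.I)
    ((1 - ro e : X →L[ℂ] X) (T e))⟫_ℂ = F at h1 ⊢
  generalize ⟪(1 - ro e : X →L[ℂ] X) (T e), Rz (cp T e) ((x : ℂ) + (η' : ℂ) * Complex.I)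
    ((1 - ro e : X →L[ℂ] X) (T e))⟫_ℂ = F' at h1 ⊢
  have h2 : (x : ℂ) + (η : ℂ) * Complex.I - ⟪e, T e⟫_ℂ + F -
      ((x : ℂ) + (η' : ℂ) * Complex.I - ⟪e, T e⟫_ℂ + F') =
      ((-(η' - η) : ℝ) : ℂ) * Complex.I + (F - F') := by
    push_cast
    ring
  have h3 : ((x : ℂ) + (η' : ℂ) * Complex.I - ⟪e, T e⟫_ℂ + F').im = η' + F'.im := by
    rw [Complex.add_im, Complex.sub_im, eTe_im hT]
    simp
  rw [h2, h3]
  refine (norm_add_le _ _).trans ?_
  rw [norm_mul, Complex.norm_I, mul_one, Complex.norm_real, norm_neg,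
    Real.norm_of_nonneg (by linarith)]
  have h4 : 0 ≤ (η' - η) / η := div_nonneg (by linarith) hη.le
  nlinarith [mul_nonneg h4 hη'.le]

/-- the limits along an arbitrary sequence of heights -/
lemma lim_seq (hT : IsSelfAdjoint T) (he : ‖e‖ = 1) (x l : ℝ)
    (hl : Tendsto (fun k => (wf T e (zk x k)).im) atTop (𝓝 l)) {η : ℕ → ℝ} (hη : ∀ k, 0 < η k)
    (hη0 : Tendsto η atTop (𝓝 0)) :
    Tendsto (fun k => (wf T e ((x : ℂ) + (η k : ℂ) * Complex.I)).im) atTop (𝓝 l) ∧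
      ∀ W, Tendsto (fun k => wf T e (zk x k)) atTop (𝓝 W) →
        Tendsto (fun k => wf T e ((x : ℂ) + (η k : ℂ) * Complex.I)) atTop (𝓝 W) := by
  -- the index
  set j : ℕ → ℕ := fun k => ⌊(η k)⁻¹⌋₊ - 1 with hj
  have hinv : Tendsto (fun k => (η k)⁻¹) atTop atTop :=
    (tendsto_nhdsWithin_iff.2 ⟨hη0, Eventually.of_forall fun k => hη k⟩ :
      Tendsto η atTop (𝓝[>] 0)).inv_tendsto_nhdsGT_zero
  have hfl : Tendsto (fun k => ⌊(η k)⁻¹⌋₊) atTop atTop := tendsto_nat_floor_atTop.comp hinv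
  have hjt : Tendsto j atTop atTop := (tendsto_sub_atTop_nat 1).comp hfl
  have hsmall : ∀ᶠ k in atTop, η k ≤ 1 / 2 := by
    have := hη0.eventually (gt_mem_nhds (show (0 : ℝ) < 1 / 2 by norm_num))
    filter_upwards [this] with k hk using hk.le
  have hep : ∀ᶠ k in atTop, η k ≤ ep (j k) ∧ (ep (j k) - η k) / η k ≤ 2 * η k := by
    filter_upwards [hsmall] with k hk
    have h0 := hη k
    have h1 : (2 : ℝ) ≤ (η k)⁻¹ := by
      rw [le_inv_comm₀ (by norm_num) h0]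
      linarith
    have h2 : 1 ≤ ⌊(η k)⁻¹⌋₊ := Nat.le_floor (by push_cast; linarith)
    have h3 : ((j k : ℕ) : ℝ) + 1 = (⌊(η k)⁻¹⌋₊ : ℝ) := by
      rw [hj]
      simp only
      rw [Nat.cast_sub h2]
      simp
    have h4 : (⌊(η k)⁻¹⌋₊ : ℝ) ≤ (η k)⁻¹ := Nat.floor_le (by positivity)
    have h5 : (η k)⁻¹ < (⌊(η k)⁻¹⌋₊ : ℝ) + 1 := Nat.lt_floor_add_one _
    have h6 : (0 : ℝ) < (⌊(η k)⁻¹⌋₊ : ℝ) := by exact_mod_cast h2
    unfold ep
    rw [h3]
    set n : ℝ := (⌊(η k)⁻¹⌋₊ : ℝ) with hn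
    have h7 : n * η k ≤ 1 := by
      calc n * η k ≤ (η k)⁻¹ * η k := by gcongr
        _ = 1 := inv_mul_cancel₀ h0.ne'
    have h8 : 1 < (n + 1) * η k := by
      calc (1 : ℝ) = (η k)⁻¹ * η k := (inv_mul_cancel₀ h0.ne').symm
        _ < (n + 1) * η k := by gcongr
    constructor
    · rw [le_div_iff₀ h6, mul_comm]
      exact h7
    · rw [div_le_iff₀ h0]
      have h9 : 1 / n ≤ η k + 2 * η k * η k := by
        rw [div_le_iff₀ h6]
        nlinarith
      linarith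
  have hdiff : Tendsto (fun k => wf T e ((x : ℂ) + (η k : ℂ) * Complex.I) -
      wf T e (zk x (j k))) atTop (𝓝 0) := by
    have hb : Tendsto (fun k => 2 * η k * η k + 2 * η k * |(wf T e (zk x (j k))).im|) atTop
        (𝓝 (2 * 0 * 0 + 2 * 0 * |l|)) :=
      ((hη0.const_mul 2).mul hη0).add ((hη0.const_mul 2).mul (hl.comp hjt).abs)
    simp only [mul_zero, zero_mul, add_zero] at hb
    rw [tendsto_zero_iff_norm_tendsto_zero]
    refine squeeze_zero' (Eventually.of_forall fun k => norm_nonneg _) ?_ hb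
    filter_upwards [hep] with k hk
    have h1 := cmp_wf hT he x (hη k) hk.1
    refine h1.trans ?_
    have h2 : ep (j k) - η k ≤ 2 * η k * η k := by
      have := hk.2
      rwa [div_le_iff₀ (hη k)] at this
    have h3 : 0 ≤ (ep (j k) - η k) / η k := div_nonneg (by linarith [hk.1]) (hη k).le
    refine add_le_add h2 ?_
    calc (ep (j k) - η k) / η k * (wf T e ((x : ℂ) + (ep (j k) : ℂ) * Complex.I)).im
        ≤ (ep (j k) - η k) / η k * |(wf T e ((x : ℂ) + (ep (j k) : ℂ) * Complex.I)).im| := by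
          gcongr
          exact le_abs_self _
      _ ≤ 2 * η k * |(wf T e ((x : ℂ) + (ep (j k) : ℂ) * Complex.I)).im| := by
          gcongr
          exact hk.2
  refine ⟨?_, fun W hW => ?_⟩
  · have h1 := ((Complex.continuous_im.tendsto 0).comp hdiff).add (hl.comp hjt)
    rw [Complex.zero_im, zero_add] at h1
    refine h1.congr fun k => ?_
    simp only [Function.comp, Complex.sub_im]
    ring
  · have h1 := hdiff.add (hW.comp hjt)
    rw [zero_add] at h1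
    refine h1.congr fun k => ?_
    simp only [Function.comp]
    ring

end

/-- almost every point of the curve is above a good point -/
lemma ae_comp {h f g : ℝ → ℝ} {m M : ℝ} (c : Cu h f g m M) {P : ℝ → Prop} (hP : ∀ᵐ x : ℝ, P x) :
    ∀ᵐ E : ℝ, P (f E) := by
  rw [ae_iff] at hP ⊢
  have h1 : {E | ¬ P (f E)} ⊆ h '' {x | ¬ P x} := fun E hE => ⟨f E, hE, c.fh E⟩
  refine measure_mono_null h1 ?_
  refine addHaar_image_eq_zero_of_differentiableOn_of_addHaar_eq_zero volume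
    (fun x _ => ?_) hP
  have : HasDerivAt h (g (h x))⁻¹ x :=
    HasDerivAt.of_local_left_inverse c.h_cont.continuousAt (c.der (h x)) (c.g_ne _)
      (Eventually.of_forall fun y => c.hf y)
  exact this.differentiableAt.differentiableWithinAt

theorem lim : S_Lim := by
  intro ι T hT e he h f g hC
  obtain ⟨m, M, hm0, hb⟩ := hC.bd
  have c : Cu h f g m M := ⟨hC.hf, hC.fh, hC.der, hC.cont, hm0, fun E => (hb E).1,
    fun E => (hb E).2⟩
  have he0 : Tendsto ep atTop (𝓝 0) := tendsto_one_div_add_atTop_nhds_zero_nat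
  have hep : ∀ k, 0 < ep k := fun k => Nat.one_div_pos_of_nat
  filter_upwards [ae_comp c (wf_lim hT he)] with E hE
  obtain ⟨l, hl, hW⟩ := hE
  have hη : ∀ k, 0 < |g E| * ep k := fun k => mul_pos (abs_pos.2 (c.g_ne E)) (hep k)
  have hη0 : Tendsto (fun k => |g E| * ep k) atTop (𝓝 0) := by
    have := he0.const_mul |g E|
    rwa [mul_zero] at this
  obtain ⟨h1, h2⟩ := lim_seq hT he (f E) l hl hη hη0
  rcases lt_or_gt_of_ne (c.g_ne E) with hg | hg
  · -- the lower half plane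
    have h3 : ∀ k, zc f g E k = conj ((f E : ℂ) + ((|g E| * ep k : ℝ) : ℂ) * Complex.I) := by
      intro k
      unfold zc
      rw [abs_of_neg hg, map_add, map_mul, Complex.conj_ofReal, Complex.conj_ofReal,
        Complex.conj_I]
      push_cast
      ring
    have h4 : ∀ k, wf T e (zc f g E k) =
        conj (wf T e ((f E : ℂ) + ((|g E| * ep k : ℝ) : ℂ) * Complex.I)) := by
      intro k
      rw [h3, wf_conj hT]
      simpa using (hη k).ne'
    refine ⟨-l, ?_, fun hl0 => ?_⟩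
    · simp only [h4, Complex.conj_im]
      exact h1.neg
    · obtain ⟨W, hW'⟩ := hW (fun h => hl0 (by rw [h, neg_zero]))
      refine ⟨conj W, ?_⟩
      simp only [h4]
      exact (Complex.continuous_conj.tendsto _).comp (h2 W hW')
  · have h3 : ∀ k, zc f g E k = (f E : ℂ) + ((|g E| * ep k : ℝ) : ℂ) * Complex.I := by
      intro k
      unfold zc
      rw [abs_of_pos hg]
    refine ⟨l, ?_, fun hl0 => ?_⟩
    · simp only [h3]
      exact h1
    · obtain ⟨W, hW'⟩ := hW hl0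
      refine ⟨W, ?_⟩
      simp only [h3]
      exact h2 W hW'

end Pool.Agent.Helper41.Cc
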