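import Pool.Agent.Helper26.Cc.Stm

/-!
# Package MOB of helper26's project CC
-/

set_option autoImplicit false

open MeasureTheory Filter Topology ProbabilityTheory
open scoped BigOperators ENNReal NNReal InnerProductSpace ComplexConjugate

namespace Pool.Agent.Helper41.Cc

open Pool.Agent.H5R2.NB Pool.Agent.Helper26.Rg Pool.Agent.Helper26.Cc
open Pool.Agent.TH369.AN (Rz pt ro cp fc rz_eq rz_uniq rank_one pt_sa cp_sa)

section

variable {X : Type} [NormedAddCommGroup X] [InnerProductSpace ℂ X] [CompleteSpace X]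
  {T : X →L[ℂ] X} {e e' : X}

/-- the compression to the complement of `e'` -/
lemma comp_inner (hT : IsSelfAdjoint T) (he' : ‖e'‖ = 1) (hee : ⟪e', e⟫_ℂ = 0) {z : ℂ}
    (hz : z.im ≠ 0) :
    ⟪e, Rz (cp T e') z e⟫_ℂ * ⟪e', Rz T z e'⟫_ℂ =
      ⟪e, Rz T z e⟫_ℂ * ⟪e', Rz T z e'⟫_ℂ - ⟪e, Rz T z e'⟫_ℂ * ⟪e', Rz T z e⟫_ℂ := by
  have hz0 : z ≠ 0 := by
    rintro rfl
    exact hz rfl
  have h1' : ⟪e', e'⟫_ℂ = 1 := by
    rw [inner_self_eq_norm_sq_to_K, he']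
    simp
  set x := Rz (cp T e') z e with hx
  have h1 : cp T e' x - z • x = e := rz_eq (cp T e') (cp_sa T hT e') z hz e
  have hP : ∀ y : X, (1 - ro e' : X →L[ℂ] X) y = y - ⟪e', y⟫_ℂ • e' := fun y => rfl
  have hcp : cp T e' x = (1 - ro e' : X →L[ℂ] X) (T ((1 - ro e' : X →L[ℂ] X) x)) := rfl
  have h2 : ⟪e', x⟫_ℂ = 0 := by
    have h3 := congrArg (fun y => ⟪e', y⟫_ℂ) h1
    simp only [inner_sub_right, inner_smul_right] at h3
    rw [hcp, hP (T _), inner_sub_right, inner_smul_right, h1', mul_one, sub_self, zero_sub,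
      hee, neg_eq_zero] at h3
    exact (mul_eq_zero.1 h3).resolve_left hz0
  have h3 : (1 - ro e' : X →L[ℂ] X) x = x := by rw [hP, h2, zero_smul, sub_zero]
  rw [hcp, h3, hP] at h1
  have h4 : T x - z • x = e + ⟪e', T x⟫_ℂ • e' := by
    rw [← h1]
    abel
  have h5 : x = Rz T z e + ⟪e', T x⟫_ℂ • Rz T z e' := by
    rw [← map_smul, ← map_add]
    exact rz_uniq T hT z hz x _ h4
  have h6 := congrArg (fun y => ⟪e', y⟫_ℂ) h5
  have h7 := congrArg (fun y => ⟪e, y⟫_ℂ) h5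
  simp only [inner_add_right, inner_smul_right] at h6 h7
  rw [h2] at h6
  rw [h7]
  linear_combination (-⟪e, Rz T z e'⟫_ℂ) * h6

end

theorem mob : S_Mob := by
  intro ι T hT e e' he he' hee z hz κ
  have he0 : e ≠ 0 := by
    rintro rfl
    rw [norm_zero] at he
    exact zero_ne_one he
  have he0' : e' ≠ 0 := by
    rintro rfl
    rw [norm_zero] at he'
    exact zero_ne_one he'
  have hee' : ⟪e', e⟫_ℂ = 0 := by rw [← inner_conj_symm, hee, map_zero]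
  have h1 := comp_inner hT he' hee' hz
  have h2 := comp_inner hT he hee hz
  have h3 := rank_one T hT e' e 0 κ z hz
  have h4 := rank_one T hT e' e' 0 κ z hz
  rw [Pool.Agent.TH369.MU.RS.pt_zero, sub_zero] at h3 h4
  have h5 := congrArg (fun y => ⟪e, y⟫_ℂ) h3
  have h6 := congrArg (fun y => ⟪e, y⟫_ℂ) h4
  simp only [inner_sub_right, inner_smul_right] at h5 h6
  have hA := F_ne (pt_sa T hT e' κ) he0 hz
  have hD := F_ne (cp_sa T hT e) he0' hz
  have hE := F_ne (cp_sa T hT e') he0 hz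
  have ha := F_ne hT he0 hz
  have hc := F_ne hT he0' hz
  unfold wf
  generalize ⟪e, Rz (pt T e' κ) z e⟫_ℂ = A at h5 hA ⊢
  generalize ⟪e, Rz (pt T e' κ) z e'⟫_ℂ = B at h5 h6 ⊢
  generalize ⟪e', Rz (cp T e) z e'⟫_ℂ = D at h2 hD ⊢
  generalize ⟪e, Rz (cp T e') z e⟫_ℂ = E at h1 hE ⊢
  generalize ⟪e, Rz T z e⟫_ℂ = a at h1 h2 h5 ha ⊢
  generalize ⟪e', Rz T z e'⟫_ℂ = c at h1 h2 h6 hc ⊢
  generalize ⟪e, Rz T z e'⟫_ℂ = b at h1 h2 h6 ⊢
  generalize ⟪e', Rz T z e⟫_ℂ = b' at h1 h2 h5 ⊢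
  have h7 : E * c = D * a := by rw [h1, h2]; ring
  have h8 : A * (1 + κ * c) = a + κ * (D * a) := by
    rw [h2]
    linear_combination (1 + κ * c) * h5 - (κ : ℂ) * b' * h6
  field_simp
  linear_combination (1 + D * κ) * h7 - D * h8

end Pool.Agent.Helper41.Cc
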