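import Pool.Graph.R_seed8.TH369.MU.RS

/-!
# STR, operator part: norms of differences of resolvents
-/

set_option autoImplicit false

open MeasureTheory Filter Topology
open scoped InnerProductSpace ComplexConjugate

namespace Pool.Agent.Helper41.Cc

open Pool.Agent.TH369.AN

variable {X : Type} [NormedAddCommGroup X] [InnerProductSpace ℂ X] [CompleteSpace X]

/-- real part of `1 / (x - p - i q)` -/
noncomputable def f1 (p q x : ℝ) : ℝ := (x - p) / ((x - p) ^ 2 + q ^ 2)

/-- imaginary part of `1 / (x - p - i q)` -/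
noncomputable def f2 (p q x : ℝ) : ℝ := q / ((x - p) ^ 2 + q ^ 2)

theorem den_pos {q : ℝ} (hq : q ≠ 0) (p x : ℝ) : 0 < (x - p) ^ 2 + q ^ 2 := by
  positivity

theorem f1_cont {q : ℝ} (hq : q ≠ 0) (p : ℝ) : Continuous (f1 p q) := by
  unfold f1
  exact Continuous.div (by fun_prop) (by fun_prop) fun x => (den_pos hq p x).ne'

theorem f2_cont {q : ℝ} (hq : q ≠ 0) (p : ℝ) : Continuous (f2 p q) := by
  unfold f2
  exact Continuous.div (by fun_prop) (by fun_prop) fun x => (den_pos hq p x).ne'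

theorem rel1 {q : ℝ} (hq : q ≠ 0) (p x : ℝ) : (x - p) * f1 p q x + q * f2 p q x = 1 := by
  have h := den_pos hq p x
  unfold f1 f2
  field_simp

theorem rel2 {q : ℝ} (hq : q ≠ 0) (p x : ℝ) : (x - p) * f2 p q x - q * f1 p q x = 0 := by
  have h := den_pos hq p x
  unfold f1 f2
  field_simp
  ring

theorem inv_eq (z : ℂ) (hz : z.im ≠ 0) (x : ℝ) :
    ((x : ℂ) - z)⁻¹ = (f1 z.re z.im x : ℂ) + Complex.I * (f2 z.re z.im x : ℂ) := by
  have h1 := rel1 hz z.re x
  have h2 := rel2 hz z.re x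
  generalize f1 z.re z.im x = a at h1 h2 ⊢
  generalize f2 z.re z.im x = b at h1 h2 ⊢
  refine (eq_inv_of_mul_eq_one_left ?_).symm
  apply Complex.ext
  · simp
    linarith
  · simp
    linarith

theorem mul_cfc' (T : X →L[ℂ] X) (hT : IsSelfAdjoint T) {f : ℝ → ℝ} (hf : Continuous f) :
    T * cfc f T = cfc (fun x => x * f x) T := by
  have h := cfc_mul (fun x : ℝ => x) f T (continuous_id.continuousOn) hf.continuousOn
  rw [cfc_id' ℝ T] at h
  exact h.symm

theorem eq1 (T : X →L[ℂ] X) (hT : IsSelfAdjoint T) {q : ℝ} (hq : q ≠ 0) (p : ℝ) :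
    T * cfc (f1 p q) T - (p : ℂ) • cfc (f1 p q) T + (q : ℂ) • cfc (f2 p q) T = 1 := by
  have c1 := f1_cont hq p
  have c2 := f2_cont hq p
  have c3 : Continuous fun x => x * f1 p q x := continuous_id.mul c1
  rw [mul_cfc' T hT c1]
  have e1 : (p : ℂ) • cfc (f1 p q) T = cfc (fun x => p * f1 p q x) T := by
    rw [cfc_const_mul p (f1 p q) T c1.continuousOn]
    exact (Complex.coe_smul p _)
  have e2 : (q : ℂ) • cfc (f2 p q) T = cfc (fun x => q * f2 p q x) T := by
    rw [cfc_const_mul q (f2 p q) T c2.continuousOn]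
    exact (Complex.coe_smul q _)
  rw [e1, e2, ← cfc_sub (fun x => x * f1 p q x) (fun x => p * f1 p q x) T c3.continuousOn
    (continuous_const.mul c1).continuousOn, ← cfc_add T (fun x => x * f1 p q x - p * f1 p q x)
    (fun x => q * f2 p q x) (c3.sub (continuous_const.mul c1)).continuousOn
    (continuous_const.mul c2).continuousOn]
  have e3 : (fun x => x * f1 p q x - p * f1 p q x + q * f2 p q x) = fun _ => (1 : ℝ) := by
    funext x
    linarith [rel1 hq p x]
  rw [e3]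
  exact cfc_const_one ℝ T

theorem eq2 (T : X →L[ℂ] X) (hT : IsSelfAdjoint T) {q : ℝ} (hq : q ≠ 0) (p : ℝ) :
    T * cfc (f2 p q) T - (p : ℂ) • cfc (f2 p q) T - (q : ℂ) • cfc (f1 p q) T = 0 := by
  have c1 := f1_cont hq p
  have c2 := f2_cont hq p
  have c3 : Continuous fun x => x * f2 p q x := continuous_id.mul c2
  rw [mul_cfc' T hT c2]
  have e1 : (p : ℂ) • cfc (f2 p q) T = cfc (fun x => p * f2 p q x) T := by
    rw [cfc_const_mul p (f2 p q) T c2.continuousOn]
    exact (Complex.coe_smul p _)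
  have e2 : (q : ℂ) • cfc (f1 p q) T = cfc (fun x => q * f1 p q x) T := by
    rw [cfc_const_mul q (f1 p q) T c1.continuousOn]
    exact (Complex.coe_smul q _)
  rw [e1, e2, ← cfc_sub (fun x => x * f2 p q x) (fun x => p * f2 p q x) T c3.continuousOn
    (continuous_const.mul c2).continuousOn, ← cfc_sub (fun x => x * f2 p q x - p * f2 p q x)
    (fun x => q * f1 p q x) T (c3.sub (continuous_const.mul c2)).continuousOn
    (continuous_const.mul c1).continuousOn]
  have e3 : (fun x => x * f2 p q x - p * f2 p q x - q * f1 p q x) = fun _ => (0 : ℝ) := by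
    funext x
    linarith [rel2 hq p x]
  rw [e3]
  exact cfc_const_zero ℝ T

/-- the resolvent in terms of the functional calculus -/
theorem rz_cfc (T : X →L[ℂ] X) (hT : IsSelfAdjoint T) (z : ℂ) (hz : z.im ≠ 0) (φ : X) :
    Rz T z φ = cfc (f1 z.re z.im) T φ + Complex.I • cfc (f2 z.re z.im) T φ := by
  have k1 : T (cfc (f1 z.re z.im) T φ) - (z.re : ℂ) • cfc (f1 z.re z.im) T φ +
      (z.im : ℂ) • cfc (f2 z.re z.im) T φ = φ :=
    congrArg (fun A : X →L[ℂ] X => A φ) (eq1 T hT hz z.re)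
  have k2 : T (cfc (f2 z.re z.im) T φ) - (z.re : ℂ) • cfc (f2 z.re z.im) T φ -
      (z.im : ℂ) • cfc (f1 z.re z.im) T φ = 0 :=
    congrArg (fun A : X →L[ℂ] X => A φ) (eq2 T hT hz z.re)
  symm
  refine rz_uniq T hT z hz _ φ ?_
  generalize cfc (f1 z.re z.im) T φ = u at k1 k2 ⊢
  generalize cfc (f2 z.re z.im) T φ = w at k1 k2 ⊢
  have hzz : z = (z.re : ℂ) + (z.im : ℂ) * Complex.I := (Complex.re_add_im z).symm
  rw [map_add, map_smul]
  have e : T u + Complex.I • T w - z • (u + Complex.I • w) =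
      (T u - (z.re : ℂ) • u + (z.im : ℂ) • w) +
        Complex.I • (T w - (z.re : ℂ) • w - (z.im : ℂ) • u) := by
    have hI : (Complex.I * Complex.I + 1) • w = 0 := by
      rw [Complex.I_mul_I, neg_add_cancel, zero_smul]
    conv_lhs => rw [hzz]
    linear_combination (norm := module) (-(z.im : ℂ)) • hI
  rw [e, k1, k2, smul_zero, add_zero]

/-- the resolvent of a function of an operator -/
theorem rz_fc (S : X →L[ℂ] X) (_hS : IsSelfAdjoint S) {h : ℝ → ℝ} (hh : Continuous h) (z : ℂ)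
    (hz : z.im ≠ 0) (φ : X) :
    Rz (fc h S) z φ = cfc (fun l => f1 z.re z.im (h l)) S φ +
      Complex.I • cfc (fun l => f2 z.re z.im (h l)) S φ := by
  have hT : IsSelfAdjoint (fc h S) := Pool.Agent.H54R3.Spec508.cfc_sa S h
  rw [rz_cfc (fc h S) hT z hz φ]
  have e1 : cfc (fun l => f1 z.re z.im (h l)) S = cfc (f1 z.re z.im) (cfc h S) :=
    cfc_comp' (f1 z.re z.im) h S (f1_cont hz _).continuousOn hh.continuousOn
  have e2 : cfc (fun l => f2 z.re z.im (h l)) S = cfc (f2 z.re z.im) (cfc h S) :=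
    cfc_comp' (f2 z.re z.im) h S (f2_cont hz _).continuousOn hh.continuousOn
  rw [e1, e2]
  rfl

/-- the norm of `a(S) φ + i b(S) φ` -/
theorem nsq2 (S : X →L[ℂ] X) (hS : IsSelfAdjoint S) (φ : X) (m : Measure ℝ)
    (hm : ∀ f : ℝ → ℝ, Continuous f →
      Integrable f m ∧ ((∫ x, f x ∂m : ℝ) : ℂ) = ⟪φ, cfc f S φ⟫_ℂ)
    {a b : ℝ → ℝ} (ha : Continuous a) (hb : Continuous b) :
    ‖cfc a S φ + Complex.I • cfc b S φ‖ ^ 2 = ∫ l, (a l ^ 2 + b l ^ 2) ∂m := by
  have sa := ContinuousLinearMap.isSelfAdjoint_iff_isSymmetric.mp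
    (Pool.Agent.H54R3.Spec508.cfc_sa S a)
  have sb := ContinuousLinearMap.isSelfAdjoint_iff_isSymmetric.mp
    (Pool.Agent.H54R3.Spec508.cfc_sa S b)
  have key : ∀ {u w : ℝ → ℝ}, Continuous u → Continuous w →
      ⟪cfc u S φ, cfc w S φ⟫_ℂ = ((∫ x, u x * w x ∂m : ℝ) : ℂ) := by
    intro u w hu hw
    have su := ContinuousLinearMap.isSelfAdjoint_iff_isSymmetric.mp
      (Pool.Agent.H54R3.Spec508.cfc_sa S u)
    have h0 := (hm (fun x => u x * w x) (hu.mul hw)).2
    rw [cfc_mul u w S hu.continuousOn hw.continuousOn] at h0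
    rw [h0]
    exact su φ _
  have haa := key ha ha
  have hbb := key hb hb
  have hab := key ha hb
  have hba := key hb ha
  have h1 : ((‖cfc a S φ + Complex.I • cfc b S φ‖ ^ 2 : ℝ) : ℂ) =
      ((∫ l, (a l ^ 2 + b l ^ 2) ∂m : ℝ) : ℂ) := by
    have h2 : ((‖cfc a S φ + Complex.I • cfc b S φ‖ ^ 2 : ℝ) : ℂ) =
        ⟪cfc a S φ + Complex.I • cfc b S φ, cfc a S φ + Complex.I • cfc b S φ⟫_ℂ := by
      rw [inner_self_eq_norm_sq_to_K]
      push_cast
      rfl
    rw [h2, inner_add_left, inner_add_right, inner_add_right, inner_smul_left, inner_smul_left,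
      inner_smul_right, inner_smul_right, haa, hbb, hab, hba]
    have i1 : Integrable (fun l => a l ^ 2) m := (hm _ (ha.pow 2)).1
    have i2 : Integrable (fun l => b l ^ 2) m := (hm _ (hb.pow 2)).1
    rw [integral_add i1 i2]
    have e1 : (∫ x, a x * a x ∂m) = ∫ x, a x ^ 2 ∂m := by simp only [sq]
    have e2 : (∫ x, b x * b x ∂m) = ∫ x, b x ^ 2 ∂m := by simp only [sq]
    have e3 : (∫ x, b x * a x ∂m) = ∫ x, a x * b x ∂m := by simp only [mul_comm]
    rw [e1, e2, e3, Complex.conj_I]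
    push_cast
    linear_combination (-((∫ x, b x ^ 2 ∂m : ℝ) : ℂ)) * Complex.I_sq
  exact_mod_cast h1

/-- the norm of a difference of resolvents -/
theorem nsq_diff (S : X →L[ℂ] X) (hS : IsSelfAdjoint S) (φ : X) (m : Measure ℝ)
    (hm : ∀ f : ℝ → ℝ, Continuous f →
      Integrable f m ∧ ((∫ x, f x ∂m : ℝ) : ℂ) = ⟪φ, cfc f S φ⟫_ℂ)
    {h : ℝ → ℝ} (hh : Continuous h) (z z' : ℂ) (hz : z.im ≠ 0) (hz' : z'.im ≠ 0) (g : ℝ) :
    ‖Rz (fc h S) z φ - (g : ℂ) • Rz S z' φ‖ ^ 2 =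
      ∫ l, ‖((h l : ℂ) - z)⁻¹ - (g : ℂ) * ((l : ℂ) - z')⁻¹‖ ^ 2 ∂m := by
  have c1 : Continuous fun l => f1 z.re z.im (h l) := (f1_cont hz _).comp hh
  have c2 : Continuous fun l => f2 z.re z.im (h l) := (f2_cont hz _).comp hh
  have c3 : Continuous fun l => g * f1 z'.re z'.im l := continuous_const.mul (f1_cont hz' _)
  have c4 : Continuous fun l => g * f2 z'.re z'.im l := continuous_const.mul (f2_cont hz' _)
  have e1 : cfc (fun l => f1 z.re z.im (h l) - g * f1 z'.re z'.im l) S =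
      cfc (fun l => f1 z.re z.im (h l)) S - (g : ℂ) • cfc (f1 z'.re z'.im) S := by
    rw [cfc_sub _ _ S c1.continuousOn c3.continuousOn,
      cfc_const_mul g (f1 z'.re z'.im) S (f1_cont hz' _).continuousOn]
    congr 1
  have e2 : cfc (fun l => f2 z.re z.im (h l) - g * f2 z'.re z'.im l) S =
      cfc (fun l => f2 z.re z.im (h l)) S - (g : ℂ) • cfc (f2 z'.re z'.im) S := by
    rw [cfc_sub _ _ S c2.continuousOn c4.continuousOn,
      cfc_const_mul g (f2 z'.re z'.im) S (f2_cont hz' _).continuousOn]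
    congr 1
  have e3 : Rz (fc h S) z φ - (g : ℂ) • Rz S z' φ =
      cfc (fun l => f1 z.re z.im (h l) - g * f1 z'.re z'.im l) S φ +
        Complex.I • cfc (fun l => f2 z.re z.im (h l) - g * f2 z'.re z'.im l) S φ := by
    rw [rz_fc S hS hh z hz, rz_cfc S hS z' hz', e1, e2]
    simp only [_root_.sub_apply, _root_.smul_apply]
    module
  have e4 := nsq2 S hS φ m hm (a := fun l => f1 z.re z.im (h l) - g * f1 z'.re z'.im l)
    (b := fun l => f2 z.re z.im (h l) - g * f2 z'.re z'.im l) (c1.sub c3) (c2.sub c4)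
  rw [e3, e4]
  refine integral_congr_ae (Eventually.of_forall fun l => ?_)
  simp only
  rw [inv_eq z hz, inv_eq z' hz', ← Complex.normSq_eq_norm_sq, Complex.normSq_apply]
  simp
  ring

end Pool.Agent.Helper41.Cc
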