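import Pool.Agent.Helper26.Cc.Stm
import Pool.Agent.Helper26.Rg.Cor
import Pool.Agent.Helper41.Cc.Str1
import Pool.Agent.Helper41.Cc.Str2

/-!
# Package STR of helper26's project CC
-/

set_option autoImplicit false

open MeasureTheory Filter Topology ProbabilityTheory
open scoped BigOperators ENNReal NNReal InnerProductSpace ComplexConjugate

namespace Pool.Agent.Helper41.Cc

open Pool.Agent.H5R2.NB Pool.Agent.Helper26.Nb Pool.Agent.Helper26.Cm Pool.Agent.Helper26.Dj
  Pool.Agent.Helper26.Rg Pool.Agent.Helper26.Cc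
open Pool.Agent.TH369.AN (Rz pt ro cp fc)
open Pool.Agent.TH369.MU (zk ep)

theorem str : S_Str := by
  intro ι S hS h f g hC W' hW x
  obtain ⟨m, M, hm0, hb⟩ := hC.bd
  have c : Cu h f g m M := ⟨hC.hf, hC.fh, hC.der, hC.cont, hm0, fun E => (hb E).1,
    fun E => (hb E).2⟩
  obtain ⟨μ, hμ, -, -, hμc, -, -⟩ := Pool.Agent.H54R3.Spec508.exists_spectral S hS x
  have he : ∀ k, 0 < ep k := fun k => Nat.one_div_pos_of_nat
  have he0 : Tendsto ep atTop (𝓝 0) := tendsto_one_div_add_atTop_nhds_zero_nat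
  obtain ⟨h1, h2⟩ := ph_main μ c he he0
  have hT : IsSelfAdjoint (fc h S) := Pool.Agent.H54R3.Spec508.cfc_sa S h
  have z1 : ∀ k (E : ℝ), ((E : ℂ) + (ep k : ℂ) * Complex.I).im ≠ 0 := by
    intro k E
    simpa using (he k).ne'
  have z2 : ∀ k (E : ℝ), (zc f g E k).im ≠ 0 := by
    intro k E
    unfold zc
    simpa using ⟨c.g_ne E, (he k).ne'⟩
  have key1 : ∀ k (E : ℝ), ‖La W' x E (ep k) + (Complex.I * g E) • Rz S (zc f g E k) x‖ ^ 2 =
      ∫ l, ‖ph h f g (ep k) E l‖ ^ 2 ∂μ := by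
    intro k E
    have e1 := nsq_diff S hS x μ hμc c.h_cont ((E : ℂ) + (ep k : ℂ) * Complex.I) (zc f g E k)
      (z1 k E) (z2 k E) (g E)
    have e2 := rz_La hT hW (he k) E x
    have e3 : La W' x E (ep k) + (Complex.I * g E) • Rz S (zc f g E k) x =
        (-Complex.I) • (Rz (fc h S) ((E : ℂ) + (ep k : ℂ) * Complex.I) x -
          (g E : ℂ) • Rz S (zc f g E k) x) := by
      rw [e2, smul_sub, smul_smul, smul_smul, neg_mul, Complex.I_mul_I, neg_neg, one_smul,
        neg_mul, neg_smul, sub_neg_eq_add]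
    rw [e3, norm_smul, norm_neg, Complex.norm_I, one_mul, e1]
    rfl
  have key2 : ∀ k (E : ℝ),
      ‖La (rev W') x (-E) (ep k) - (Complex.I * g E) • Rz S (conj (zc f g E k)) x‖ ^ 2 =
      ∫ l, ‖ph h f g (ep k) E l‖ ^ 2 ∂μ := by
    intro k E
    have e1 := nsq_diff S hS x μ hμc c.h_cont (conj ((E : ℂ) + (ep k : ℂ) * Complex.I))
      (conj (zc f g E k)) (by rw [Complex.conj_im]; exact neg_ne_zero.2 (z1 k E))
      (by rw [Complex.conj_im]; exact neg_ne_zero.2 (z2 k E)) (g E)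
    have e2 := rz_La' hT hW (he k) E x
    have e3 : La (rev W') x (-E) (ep k) - (Complex.I * g E) • Rz S (conj (zc f g E k)) x =
        Complex.I • (Rz (fc h S) (conj ((E : ℂ) + (ep k : ℂ) * Complex.I)) x -
          (g E : ℂ) • Rz S (conj (zc f g E k)) x) := by
      rw [e2, smul_sub, smul_neg, smul_smul, smul_smul, Complex.I_mul_I, neg_smul, neg_neg,
        one_smul]
    rw [e3, norm_smul, Complex.norm_I, one_mul, e1]
    refine integral_congr_ae (Eventually.of_forall fun l => ?_)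
    simp only
    congr 1
    have e4 : ((h l : ℂ) - conj ((E : ℂ) + (ep k : ℂ) * Complex.I))⁻¹ -
        (g E : ℂ) * ((l : ℂ) - conj (zc f g E k))⁻¹ = conj (ph h f g (ep k) E l) := by
      unfold ph zc
      rw [map_sub, map_mul, map_inv₀, map_inv₀, map_sub, map_sub, Complex.conj_ofReal,
        Complex.conj_ofReal, Complex.conj_ofReal]
    rw [e4, RCLike.norm_conj]
  refine ⟨fun k => ?_, fun k => ?_, ?_, ?_⟩
  · simp only [key1]
    exact h1 k
  · simp only [key2]
    exact h1 k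
  · simp only [key1]
    exact h2
  · simp only [key2]
    exact h2

end Pool.Agent.Helper41.Cc
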